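import Pool.Agent.Lib_helper20.FS.Terms

/-!
# Almost all elements of a set; counts in residue classes
-/

set_option autoImplicit false

namespace Pool.Agent.Lib_helper20.FS

open Finset Pool.Agent.AAM Pool.Agent.Lib_helper31.DIC

/-- In every long window almost all elements of `X` are in `D`. -/
def AlmostAllOf (D X : Set ℕ) : Prop := ∀ η : ℝ, 0 < η → ∃ L : ℕ, ∀ n ≥ L, ∀ x : ℕ,
  (({d : ℕ | d ∈ X ∧ d ∉ D} ∩ Set.Ioc x (x + n)).ncard : ℝ) ≤ η * n

theorem AlmostAllOf.mono {D X Y : Set ℕ} (h : AlmostAllOf D X) (hXY : Y ⊆ X) :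
    AlmostAllOf D Y := by
  intro η hη
  obtain ⟨L, hL⟩ := h η hη
  refine ⟨L, fun n hn x => le_trans ?_ (hL n hn x)⟩
  refine Nat.cast_le.2 (Set.ncard_le_ncard ?_ ((Set.finite_Ioc _ _).inter_of_right _))
  rintro d ⟨⟨h1, h2⟩, h3⟩
  exact ⟨⟨hXY h1, h2⟩, h3⟩

theorem AlmostAllOf.union {D X Y : Set ℕ} (h : AlmostAllOf D X) (h' : AlmostAllOf D Y) :
    AlmostAllOf D (X ∪ Y) := by
  intro η hη
  obtain ⟨L, hL⟩ := h (η / 2) (by positivity)
  obtain ⟨L', hL'⟩ := h' (η / 2) (by positivity)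
  refine ⟨max L L', fun n hn x => ?_⟩
  have h1 := hL n ((le_max_left _ _).trans hn) x
  have h2 := hL' n ((le_max_right _ _).trans hn) x
  have h3 : ({d : ℕ | d ∈ X ∪ Y ∧ d ∉ D} ∩ Set.Ioc x (x + n)).ncard ≤
      ({d : ℕ | d ∈ X ∧ d ∉ D} ∩ Set.Ioc x (x + n)).ncard +
      ({d : ℕ | d ∈ Y ∧ d ∉ D} ∩ Set.Ioc x (x + n)).ncard := by
    refine le_trans (Set.ncard_le_ncard ?_ ((Set.Finite.inter_of_right (Set.finite_Ioc _ _) _).union
      (Set.Finite.inter_of_right (Set.finite_Ioc _ _) _))) (Set.ncard_union_le _ _)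
    rintro d ⟨⟨h4 | h4, h5⟩, h6⟩
    · exact Or.inl ⟨⟨h4, h5⟩, h6⟩
    · exact Or.inr ⟨⟨h4, h5⟩, h6⟩
  have h4 : ((({d : ℕ | d ∈ X ∪ Y ∧ d ∉ D} ∩ Set.Ioc x (x + n)).ncard : ℕ) : ℝ) ≤
      (({d : ℕ | d ∈ X ∧ d ∉ D} ∩ Set.Ioc x (x + n)).ncard : ℝ) +
      (({d : ℕ | d ∈ Y ∧ d ∉ D} ∩ Set.Ioc x (x + n)).ncard : ℝ) := by exact_mod_cast h3
  linarith

theorem posBanach_of_not {D X : Set ℕ} (h : ¬ AlmostAllOf D X) :
    PosBanach {d : ℕ | d ∈ X ∧ d ∉ D} := by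
  unfold AlmostAllOf at h
  push Not at h
  exact h

theorem almostAllOf_dvd {D : Set ℕ} {q : ℕ} : AlmostAllOf D {d | q ∣ d} ↔ AlmostAll D q :=
  Iff.rfl

/-- a class almost all of whose elements are in `D` -/
theorem cnt_full {D : Set ℕ} {M a : ℕ} (hM : 0 < M) (h : AlmostAllOf D {d | d ≡ a [MOD M]}) (e : ℝ)
    (he : 0 < e) : ∃ L : ℕ, ∀ n ≥ L, ∀ x : ℕ, (1 / (M : ℝ) - e) * n ≤ cnt D M a x n := by
  classical
  obtain ⟨L, hL⟩ := h (e / 2) (by positivity)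
  obtain ⟨N, hN⟩ := exists_nat_gt (1 / (e / 2))
  refine ⟨max L N, fun n hn x => ?_⟩
  have h1 := hL n ((le_max_left _ _).trans hn) x
  have h2 := class_count M a n x hM
  have h3 : ({d : ℕ | d ∈ {d | d ≡ a [MOD M]} ∧ d ∉ D} ∩ Set.Ioc x (x + n)).ncard =
      ((Ioc x (x + n)).filter fun y => y ≡ a [MOD M] ∧ y ∉ D).card := by
    rw [← Set.ncard_coe_finset]
    congr 1
    ext y
    simp only [coe_filter, mem_Ioc, Set.mem_inter_iff, Set.mem_Ioc, Set.mem_ofPred_eq]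
    tauto
  rw [h3] at h1
  have h4 : ((Ioc x (x + n)).filter fun y => y ≡ a [MOD M]).card ≤
      ((Ioc x (x + n)).filter fun y => y ≡ a [MOD M] ∧ y ∈ D).card +
      ((Ioc x (x + n)).filter fun y => y ≡ a [MOD M] ∧ y ∉ D).card := by
    refine le_trans (card_le_card ?_) (card_union_le _ _)
    intro y hy
    rw [mem_filter] at hy
    rw [mem_union, mem_filter, mem_filter]
    by_cases c : y ∈ D
    · exact Or.inl ⟨hy.1, hy.2, c⟩
    · exact Or.inr ⟨hy.1, hy.2, c⟩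
  rw [← cnt_eq] at h4
  have h5 : ((n / M : ℕ) : ℝ) ≤ cnt D M a x n +
      ((Ioc x (x + n)).filter fun y => y ≡ a [MOD M] ∧ y ∉ D).card := by
    exact_mod_cast h2.trans h4
  have hMR : (0 : ℝ) < M := by exact_mod_cast hM
  have h9 : (n : ℝ) / M - 1 ≤ ((n / M : ℕ) : ℝ) := by
    have h10 : n < M * (n / M + 1) := Nat.lt_mul_div_succ n hM
    have h11 : (n : ℝ) ≤ M * (((n / M : ℕ) : ℝ) + 1) := by exact_mod_cast h10.le
    rw [sub_le_iff_le_add, div_le_iff₀ hMR]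
    linarith
  have hnN : 1 / (e / 2) < (n : ℝ) :=
    hN.trans_le (by exact_mod_cast (le_max_right _ _).trans hn)
  rw [div_lt_iff₀ (by positivity)] at hnN
  have h13 : (1 / (M : ℝ) - e) * n = (n : ℝ) / M - e * n := by ring
  rw [h13]
  linarith

theorem modEq_three (m a y : ℕ) : y ≡ a [MOD m] ↔
    y ≡ a [MOD 3 * m] ∨ y ≡ a + m [MOD 3 * m] ∨ y ≡ a + 2 * m [MOD 3 * m] := by
  rw [Nat.modEq_iff_dvd, Nat.modEq_iff_dvd, Nat.modEq_iff_dvd, Nat.modEq_iff_dvd]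
  push_cast
  constructor
  · rintro ⟨k, hk⟩
    rcases (by omega : k % 3 = 0 ∨ k % 3 = 1 ∨ k % 3 = 2) with h | h | h
    · left
      refine ⟨k / 3, ?_⟩
      have h1 : k = 3 * (k / 3) := by omega
      rw [hk]
      linear_combination (m : ℤ) * h1
    · right
      right
      refine ⟨k / 3 + 1, ?_⟩
      have h1 : k = 3 * (k / 3) + 1 := by omega
      linear_combination hk + (m : ℤ) * h1
    · right
      left
      refine ⟨k / 3 + 1, ?_⟩
      have h1 : k = 3 * (k / 3) + 2 := by omega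
      linear_combination hk + (m : ℤ) * h1
  · rintro (⟨k, hk⟩ | ⟨k, hk⟩ | ⟨k, hk⟩)
    · exact ⟨3 * k, by linear_combination hk⟩
    · exact ⟨3 * k - 1, by linear_combination hk⟩
    · exact ⟨3 * k - 2, by linear_combination hk⟩

theorem modEq_add_ne {m a j : ℕ} (Q : ℕ) (hj0 : 0 < j) (hj : j < Q) (hm : 0 < m) (y : ℕ)
    (h1 : y ≡ a [MOD Q * m]) (h2 : y ≡ a + j * m [MOD Q * m]) : False := by
  have h3 : a + 0 ≡ a + j * m [MOD Q * m] := h1.symm.trans h2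
  have h4 : 0 ≡ j * m [MOD Q * m] := Nat.ModEq.add_left_cancel' a h3
  have h5 : 0 * m ≡ j * m [MOD Q * m] := by rwa [Nat.zero_mul]
  have h6 : 0 ≡ j [MOD Q] := Nat.ModEq.mul_right_cancel' hm.ne' h5
  have h7 : 0 % Q = j % Q := h6
  rw [Nat.zero_mod, Nat.mod_eq_of_lt hj] at h7
  omega

/-- a class modulo `m` consists of three classes modulo `3 m` -/
theorem cnt_three (D : Set ℕ) {m : ℕ} (hm : 0 < m) (a x n : ℕ) : cnt D m a x n =
    cnt D (3 * m) a x n + cnt D (3 * m) (a + m) x n + cnt D (3 * m) (a + 2 * m) x n := by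
  classical
  rw [cnt_eq, cnt_eq, cnt_eq, cnt_eq, ← card_union_of_disjoint, ← card_union_of_disjoint]
  · congr 1
    ext y
    simp only [mem_union, mem_filter]
    rw [modEq_three m a y]
    tauto
  · rw [disjoint_left]
    intro y hy hy'
    rw [mem_union, mem_filter, mem_filter] at hy
    rw [mem_filter] at hy'
    rcases hy with hy | hy
    · exact modEq_add_ne 3 (j := 2) (by norm_num) (by norm_num) hm y hy.2.1 hy'.2.1
    · refine modEq_add_ne 3 (a := a + m) (j := 1) (by norm_num) (by norm_num) hm y hy.2.1 ?_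
      have h1 : a + m + 1 * m = a + 2 * m := by ring
      rw [h1]
      exact hy'.2.1
  · rw [disjoint_left]
    intro y hy hy'
    rw [mem_filter] at hy hy'
    refine modEq_add_ne 3 (a := a) (j := 1) (by norm_num) (by norm_num) hm y hy.2.1 ?_
    rw [one_mul]
    exact hy'.2.1

end Pool.Agent.Lib_helper20.FS
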