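import Pool.Agent.Lib_helper31.DIC.Cls

/-!
# Lemmas on shares

`share_mono`, `share_three` (helper31) and `window_div` (helper23), repeated here.
-/

set_option autoImplicit false

namespace Pool.Agent.Lib_helper20.FS

open Finset Pool.Agent.AAM Pool.Agent.Lib_helper31.DIC

/-- the multiples of `q` in `(x, x + n]` -/
theorem window_div {q : ℕ} (hq : 0 < q) (x n : ℕ) :
    (n : ℝ) / q - 1 ≤ (((x + n) / q - x / q : ℕ) : ℝ) ∧
      (((x + n) / q - x / q : ℕ) : ℝ) ≤ (n : ℝ) / q + 1 := by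
  have hqR : (0 : ℝ) < q := by exact_mod_cast hq
  have hle : x / q ≤ (x + n) / q := Nat.div_le_div_right (Nat.le_add_right x n)
  rw [Nat.cast_sub hle]
  have h1 : ((x / q : ℕ) : ℝ) ≤ x / q := Nat.cast_div_le
  have h2 : (((x + n) / q : ℕ) : ℝ) ≤ ((x + n : ℕ) : ℝ) / q := Nat.cast_div_le
  have h3 : (x : ℝ) / q < (x / q : ℕ) + 1 := by
    rw [div_lt_iff₀ hqR]
    have h4 : x < q * (x / q + 1) := by
      have := Nat.div_add_mod x q
      have := Nat.mod_lt x hq
      nlinarith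
    have h5 : (x : ℝ) < q * ((x / q : ℕ) + 1) := by exact_mod_cast h4
    linarith
  have h6 : ((x + n : ℕ) : ℝ) / q < ((x + n) / q : ℕ) + 1 := by
    rw [div_lt_iff₀ hqR]
    have h4 : x + n < q * ((x + n) / q + 1) := by
      have := Nat.div_add_mod (x + n) q
      have := Nat.mod_lt (x + n) hq
      nlinarith
    have h5 : ((x + n : ℕ) : ℝ) < q * (((x + n) / q : ℕ) + 1) := by exact_mod_cast h4
    linarith
  have h7 : ((x + n : ℕ) : ℝ) / q = x / q + n / q := by
    push_cast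
    ring
  constructor <;> linarith

theorem share_mono {D : Set ℕ} {q a : ℕ} {s s' : ℝ} (h : Share D q a s) (hs : s' ≤ s) :
    Share D q a s' := by
  intro e he
  obtain ⟨L, hL⟩ := h e he
  refine ⟨L, fun n hn x => le_trans ?_ (hL n hn x)⟩
  exact mul_le_mul_of_nonneg_right (by linarith) (Nat.cast_nonneg n)

/-- a class modulo `q` consists of three classes modulo `3 q` -/
theorem share_three {D : Set ℕ} {q a : ℕ} (hq : 0 < q) {s : ℕ → ℝ}
    (h : ∀ i < 3, Share D (3 * q) (a + i * q) (s i)) : Share D q a (s 0 + s 1 + s 2) := by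
  classical
  intro e he
  obtain ⟨L0, hL0⟩ := h 0 (by norm_num) (e / 3) (by positivity)
  obtain ⟨L1, hL1⟩ := h 1 (by norm_num) (e / 3) (by positivity)
  obtain ⟨L2, hL2⟩ := h 2 (by norm_num) (e / 3) (by positivity)
  refine ⟨max L0 (max L1 L2), fun n hn x => ?_⟩
  have h0 := hL0 n ((le_max_left _ _).trans hn) x
  have h1 := hL1 n (((le_max_left _ _).trans (le_max_right _ _)).trans hn) x
  have h2 := hL2 n (((le_max_right _ _).trans (le_max_right _ _)).trans hn) x
  -- finite sets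
  have hconv : ∀ m b : ℕ, ({d : ℕ | d ≡ b [MOD m] ∧ d ∈ D} ∩ Set.Ioc x (x + n)).ncard =
      #((Ioc x (x + n)).filter fun y => y ≡ b [MOD m] ∧ y ∈ D) := by
    intro m b
    rw [← Set.ncard_coe_finset]
    congr 1
    ext y
    simp only [coe_filter, mem_Ioc, Set.mem_inter_iff, Set.mem_Ioc, Set.mem_ofPred_eq]
    tauto
  rw [hconv] at h0 h1 h2 ⊢
  have hsub : ∀ i, ((Ioc x (x + n)).filter fun y => y ≡ a + i * q [MOD 3 * q] ∧ y ∈ D) ⊆
      (Ioc x (x + n)).filter fun y => y ≡ a [MOD q] ∧ y ∈ D := by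
    intro i y hy
    rw [mem_filter] at hy ⊢
    refine ⟨hy.1, ?_, hy.2.2⟩
    have h3 : y ≡ a + i * q [MOD q] := hy.2.1.of_dvd (dvd_mul_left _ _)
    have h4 : (a + i * q) % q = a % q := Nat.add_mul_mod_self_right _ _ _
    exact h3.trans h4
  have hdis : ∀ i < 3, ∀ j < 3, i ≠ j →
      Disjoint ((Ioc x (x + n)).filter fun y => y ≡ a + i * q [MOD 3 * q] ∧ y ∈ D)
        ((Ioc x (x + n)).filter fun y => y ≡ a + j * q [MOD 3 * q] ∧ y ∈ D) := by
    intro i hi j hj hij
    rw [disjoint_left]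
    intro y hy hy'
    rw [mem_filter] at hy hy'
    have h3 : a + i * q ≡ a + j * q [MOD 3 * q] := hy.2.1.symm.trans hy'.2.1
    have h4 : i * q ≡ j * q [MOD 3 * q] := Nat.ModEq.add_left_cancel' a h3
    have h5 : i ≡ j [MOD 3] := Nat.ModEq.mul_right_cancel' hq.ne' h4
    have h6 : i % 3 = j % 3 := h5
    omega
  have hsum : #((Ioc x (x + n)).filter fun y => y ≡ a + 0 * q [MOD 3 * q] ∧ y ∈ D) +
      #((Ioc x (x + n)).filter fun y => y ≡ a + 1 * q [MOD 3 * q] ∧ y ∈ D) +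
      #((Ioc x (x + n)).filter fun y => y ≡ a + 2 * q [MOD 3 * q] ∧ y ∈ D) ≤
      #((Ioc x (x + n)).filter fun y => y ≡ a [MOD q] ∧ y ∈ D) := by
    rw [← card_union_of_disjoint (hdis 0 (by norm_num) 1 (by norm_num) (by norm_num)),
      ← card_union_of_disjoint (disjoint_union_left.2
        ⟨hdis 0 (by norm_num) 2 (by norm_num) (by norm_num),
          hdis 1 (by norm_num) 2 (by norm_num) (by norm_num)⟩)]
    exact card_le_card (union_subset (union_subset (hsub 0) (hsub 1)) (hsub 2))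
  have hsumR : (#((Ioc x (x + n)).filter fun y => y ≡ a + 0 * q [MOD 3 * q] ∧ y ∈ D) : ℝ) +
      #((Ioc x (x + n)).filter fun y => y ≡ a + 1 * q [MOD 3 * q] ∧ y ∈ D) +
      #((Ioc x (x + n)).filter fun y => y ≡ a + 2 * q [MOD 3 * q] ∧ y ∈ D) ≤
      #((Ioc x (x + n)).filter fun y => y ≡ a [MOD q] ∧ y ∈ D) := by exact_mod_cast hsum
  have hid : (s 0 + s 1 + s 2 - e) * (n : ℝ) =
      (s 0 - e / 3) * n + (s 1 - e / 3) * n + (s 2 - e / 3) * n := by ring
  rw [hid]
  linarith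

end Pool.Agent.Lib_helper20.FS
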