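import Pool.Agent.Lib_helper20.FS.Basic
import Pool.Agent.Lib_helper20.FS.Shares
import Pool.Agent.Lib_helper47.TA.F2.FIN2

/-!
# Almost all multiples of `3 q`, or three sevenths of the multiples of `q`, for `6 ∣ q`
-/

set_option autoImplicit false

namespace Pool.Agent.Lib_helper20.FS

open Finset Pool.Agent.AAM Pool.Agent.Lib_helper31.DIC

/-- from windows of multiples to windows -/
theorem share_of_windows {D : Set ℕ} {q : ℕ} (hq : 0 < q) (s : ℝ) (hs : 0 ≤ s)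
    (h : ∃ L : ℕ, ∀ a N : ℕ, L ≤ N →
      s * N ≤ (({j : ℕ | q * (a + j) ∈ D} ∩ Set.Iio N).ncard : ℝ)) : Share D q 0 (s / q) := by
  intro e he
  have hqR : (0 : ℝ) < q := by exact_mod_cast hq
  obtain ⟨L, hL⟩ := h
  obtain ⟨n₁, hn₁⟩ := exists_nat_gt (s / e)
  refine ⟨q * (L + 1) + n₁, fun n hn x => ?_⟩
  obtain ⟨hw1, hw2⟩ := window_div hq x n
  set N := (x + n) / q - x / q with hN
  have hn1 : q * (L + 1) ≤ n := by omega
  have hn2 : n₁ ≤ n := by omega
  have hNL : L ≤ N := by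
    have h1 : ((q * (L + 1) : ℕ) : ℝ) ≤ n := by exact_mod_cast hn1
    have h2 : ((L : ℝ) + 1) ≤ n / q := by
      rw [le_div_iff₀ hqR]
      push_cast at h1
      linarith
    have h3 : (L : ℝ) ≤ N := by linarith
    exact_mod_cast h3
  have h4 := hL (x / q + 1) N hNL
  have h5 : ({j : ℕ | q * (x / q + 1 + j) ∈ D} ∩ Set.Iio N).ncard ≤
      ({d : ℕ | d ≡ 0 [MOD q] ∧ d ∈ D} ∩ Set.Ioc x (x + n)).ncard := by
    refine Set.ncard_le_ncard_of_injOn (fun j => q * (x / q + 1 + j)) ?_ ?_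
      ((Set.finite_Ioc _ _).inter_of_right _)
    · rintro j ⟨hj1, hj2⟩
      have hj3 : j < N := hj2
      refine ⟨⟨(Nat.modEq_zero_iff_dvd).2 (Dvd.intro _ rfl), hj1⟩, ?_, ?_⟩
      · show x < q * (x / q + 1 + j)
        have := Nat.div_add_mod x q
        have := Nat.mod_lt x hq
        nlinarith
      · show q * (x / q + 1 + j) ≤ x + n
        have h6 : x / q + 1 + j ≤ (x + n) / q := by omega
        exact (Nat.mul_le_mul_left q h6).trans (Nat.mul_div_le _ _)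
    · intro j _ j' _ hjj
      have h6 : x / q + 1 + j = x / q + 1 + j' := Nat.eq_of_mul_eq_mul_left hq hjj
      omega
  have h6 : (({j : ℕ | q * (x / q + 1 + j) ∈ D} ∩ Set.Iio N).ncard : ℝ) ≤
      (({d : ℕ | d ≡ 0 [MOD q] ∧ d ∈ D} ∩ Set.Ioc x (x + n)).ncard : ℝ) := by exact_mod_cast h5
  refine le_trans ?_ (h4.trans h6)
  have h7 : s / e < n := hn₁.trans_le (by exact_mod_cast hn2)
  rw [div_lt_iff₀ he] at h7
  have h8 : s * ((n : ℝ) / q - 1) ≤ s * N := mul_le_mul_of_nonneg_left hw1 hs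
  have h9 : (s / q - e) * n = s * ((n : ℝ) / q - 1) + s - n * e := by ring
  rw [h9]
  linarith

/-- the same for almost all elements -/
theorem almostAllOf_of_windows {D : Set ℕ} {q Q : ℕ} (hq : 0 < q) (J : Finset (ZMod Q))
    (h : ∀ η : ℝ, 0 < η → ∃ L : ℕ, ∀ a N : ℕ, L ≤ N →
      (({j : ℕ | ((a + j : ℕ) : ZMod Q) ∈ J ∧ q * (a + j) ∉ D} ∩ Set.Iio N).ncard : ℝ) ≤ η * N) :
    AlmostAllOf D {d : ℕ | ∃ i : ℕ, d = q * i ∧ (i : ZMod Q) ∈ J} := by
  intro η hη
  have hqR : (0 : ℝ) < q := by exact_mod_cast hq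
  obtain ⟨L, hL⟩ := h (η / 2) (by positivity)
  refine ⟨q * (L + 1), fun n hn x => ?_⟩
  obtain ⟨hw1, hw2⟩ := window_div hq x n
  set N := (x + n) / q - x / q with hN
  have hn1 : ((q * (L + 1) : ℕ) : ℝ) ≤ n := by exact_mod_cast hn
  have hn2 : ((L : ℝ) + 1) ≤ n / q := by
    rw [le_div_iff₀ hqR]
    push_cast at hn1
    linarith
  have hNL : L ≤ N := by
    have h3 : (L : ℝ) ≤ N := by linarith
    exact_mod_cast h3
  have h4 := hL (x / q + 1) N hNL
  have h5 : ({d : ℕ | d ∈ {d : ℕ | ∃ i : ℕ, d = q * i ∧ (i : ZMod Q) ∈ J} ∧ d ∉ D} ∩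
        Set.Ioc x (x + n)).ncard ≤
      ({j : ℕ | ((x / q + 1 + j : ℕ) : ZMod Q) ∈ J ∧ q * (x / q + 1 + j) ∉ D} ∩
        Set.Iio N).ncard := by
    refine Set.ncard_le_ncard_of_injOn (fun d => d / q - (x / q + 1)) ?_ ?_
      ((Set.finite_Iio _).inter_of_right _)
    · rintro d ⟨⟨⟨i, rfl, hi⟩, hd2⟩, hd3, hd4⟩
      have h6 : q * i / q = i := Nat.mul_div_cancel_left i hq
      have h7 : x / q < i := (Nat.div_lt_iff_lt_mul hq).2 (by rw [mul_comm]; exact hd3)
      have h8 : i ≤ (x + n) / q := (Nat.le_div_iff_mul_le hq).2 (by rw [mul_comm]; exact hd4)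
      have h9 : x / q + 1 + (i - (x / q + 1)) = i := by omega
      show q * i / q - (x / q + 1) ∈ _
      rw [h6]
      refine ⟨⟨?_, ?_⟩, ?_⟩
      · rw [h9]
        exact hi
      · rw [h9]
        exact hd2
      · show i - (x / q + 1) < N
        omega
    · rintro d ⟨⟨⟨i, rfl, hi⟩, hd2⟩, hd3, hd4⟩ d' ⟨⟨⟨i', rfl, hi'⟩, hd2'⟩, hd3', hd4'⟩ hdd
      have hdd' : q * i / q - (x / q + 1) = q * i' / q - (x / q + 1) := hdd
      rw [Nat.mul_div_cancel_left i hq, Nat.mul_div_cancel_left i' hq] at hdd'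
      have h7 : x / q < i := (Nat.div_lt_iff_lt_mul hq).2 (by rw [mul_comm]; exact hd3)
      have h7' : x / q < i' := (Nat.div_lt_iff_lt_mul hq).2 (by rw [mul_comm]; exact hd3')
      have h8 : i = i' := by omega
      rw [h8]
  have h6 : (({d : ℕ | d ∈ {d : ℕ | ∃ i : ℕ, d = q * i ∧ (i : ZMod Q) ∈ J} ∧ d ∉ D} ∩
        Set.Ioc x (x + n)).ncard : ℝ) ≤
      (({j : ℕ | ((x / q + 1 + j : ℕ) : ZMod Q) ∈ J ∧ q * (x / q + 1 + j) ∉ D} ∩
        Set.Iio N).ncard : ℝ) := by exact_mod_cast h5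
  refine h6.trans (h4.trans ?_)
  have hq1 : (1 : ℝ) ≤ q := by exact_mod_cast hq
  have h7 : (n : ℝ) / q ≤ n := div_le_self (Nat.cast_nonneg n) hq1
  have h8 : (1 : ℝ) ≤ n / q := by
    have : (0 : ℝ) ≤ L := Nat.cast_nonneg L
    linarith
  have h9 : (N : ℝ) ≤ 2 * n := by linarith
  calc η / 2 * (N : ℝ) ≤ η / 2 * (2 * n) := mul_le_mul_of_nonneg_left h9 (by positivity)
    _ = η * n := by ring

/-- three of the seven classes modulo `7 q` of the multiples of `q` -/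
theorem cnt_seven (D : Set ℕ) {q : ℕ} (hq : 0 < q) (a : ℕ) (ha0 : 0 < a) (ha : a < 7) (x n : ℕ) :
    cnt D (7 * q) (0 * q) x n + cnt D (7 * q) (a * q) x n + cnt D (7 * q) ((7 - a) * q) x n ≤
      cnt D q 0 x n := by
  classical
  have hdis : ∀ i j : ℕ, i < j → j < 7 →
      Disjoint ((Ioc x (x + n)).filter fun y => y ≡ i * q [MOD 7 * q] ∧ y ∈ D)
        ((Ioc x (x + n)).filter fun y => y ≡ j * q [MOD 7 * q] ∧ y ∈ D) := by
    intro i j hij hj
    rw [disjoint_left]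
    intro y hy hy'
    rw [mem_filter] at hy hy'
    refine modEq_add_ne 7 (a := i * q) (j := j - i) (by omega) (by omega) hq y hy.2.1 ?_
    have h1 : i * q + (j - i) * q = j * q := by
      rw [← Nat.add_mul]
      congr 1
      omega
    rw [h1]
    exact hy'.2.1
  have hd : Disjoint ((Ioc x (x + n)).filter fun y => y ≡ a * q [MOD 7 * q] ∧ y ∈ D)
        ((Ioc x (x + n)).filter fun y => y ≡ (7 - a) * q [MOD 7 * q] ∧ y ∈ D) := by
    rcases Nat.lt_or_ge a (7 - a) with h | h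
    · exact hdis _ _ h (by omega)
    · exact (hdis _ _ (by omega : 7 - a < a) ha).symm
  rw [cnt_eq, cnt_eq, cnt_eq, cnt_eq,
    ← card_union_of_disjoint (hdis 0 a ha0 ha),
    ← card_union_of_disjoint (disjoint_union_left.2 ⟨hdis 0 (7 - a) (by omega) (by omega), hd⟩)]
  refine card_le_card ?_
  have hsub : ∀ i, ((Ioc x (x + n)).filter fun y => y ≡ i * q [MOD 7 * q] ∧ y ∈ D) ⊆
      (Ioc x (x + n)).filter fun y => y ≡ 0 [MOD q] ∧ y ∈ D := by
    intro i y hy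
    rw [mem_filter] at hy ⊢
    refine ⟨hy.1, ?_, hy.2.2⟩
    have h3 : y ≡ i * q [MOD q] := hy.2.1.of_dvd (dvd_mul_left _ _)
    exact h3.trans ((Nat.modEq_zero_iff_dvd).2 (dvd_mul_left _ _))
  exact union_subset (union_subset (hsub 0) (hsub a)) (hsub (7 - a))

/-- **almost all multiples of `3 q`, or three sevenths of the multiples of `q`** -/
theorem sevenths {k : ℕ} {D : Set ℕ} (hD : Pool.Agent.Lib_helper23.PG.HitsBins 4 k D) {q : ℕ}
    (hq : 0 < q) (h6 : 6 ∣ q) :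
    AlmostAllOf D {d | d ≡ 0 [MOD 3 * q]} ∨ Share D q 0 (3 / 7 / (q : ℝ)) := by
  rcases Pool.Agent.TA.ta_windows2 D k hD q hq h6 (1 / 14) (by norm_num) with
    ⟨L, hL⟩ | ⟨r, J, hr, hJ, hb, h⟩
  · right
    refine share_of_windows hq (3 / 7) (by norm_num) ⟨L, fun a N hN => ?_⟩
    have := hL a N hN
    norm_num at this ⊢
    exact this
  have hr2 : r ≤ 2 := by
    have h1 : (r : ℝ) ≤ 2 := by linarith
    exact_mod_cast h1
  have hW := almostAllOf_of_windows hq J h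
  obtain ⟨d, hd, hJ⟩ := hJ
  obtain rfl | rfl : r = 1 ∨ r = 2 := by omega
  · left
    refine hW.mono fun y hy => ?_
    obtain ⟨i, rfl⟩ := (Nat.modEq_zero_iff_dvd).1 hy
    refine ⟨3 * i, by ring, ?_⟩
    have h1 := hJ (3 * i) ⟨0, by norm_num, ⟨i, by norm_num⟩⟩
    push_cast at h1 ⊢
    exact h1
  · right
    -- the classes
    obtain ⟨a, ha0, ha, had⟩ : ∃ a : ℕ, 0 < a ∧ a < 7 ∧ (7 : ℤ) ∣ (a : ℤ) - d := by
      have h1 : (0 : ℤ) ≤ d % 7 := Int.emod_nonneg _ (by norm_num)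
      have h2 : d % 7 < 7 := Int.emod_lt_of_pos _ (by norm_num)
      have h3 : d % 7 ≠ 0 := by
        intro h0
        have h4 : (7 : ℤ) ∣ d := Int.dvd_of_emod_eq_zero h0
        have h5 : IsCoprime d (7 : ℤ) := by
          have := hd
          norm_num at this
          exact this
        have h6 : IsUnit (7 : ℤ) := h5.isUnit_of_dvd' h4 dvd_rfl
        rw [Int.isUnit_iff] at h6
        omega
      refine ⟨(d % 7).toNat, by omega, by omega, ?_⟩
      omega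
    have hfull : ∀ c : ℕ, (∃ i : ℤ, |i| < ((2 : ℕ) : ℤ) ∧ (7 : ℤ) ∣ (c : ℤ) - i * d) →
        AlmostAllOf D {y | y ≡ c * q [MOD 7 * q]} := by
      rintro c ⟨i, hi, hci⟩
      refine hW.mono fun y hy => ?_
      have hy1 : y ≡ c * q [MOD 7 * q] := hy
      have hy2 : q ∣ y := by
        have h3 : y ≡ c * q [MOD q] := hy1.of_dvd (dvd_mul_left _ _)
        exact (Nat.modEq_zero_iff_dvd).1 (h3.trans ((Nat.modEq_zero_iff_dvd).2 (dvd_mul_left _ _)))
      obtain ⟨j, rfl⟩ := hy2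
      refine ⟨j, rfl, ?_⟩
      have h4 : j * q ≡ c * q [MOD 7 * q] := by rwa [mul_comm q j] at hy1
      have h5 : j ≡ c [MOD 7] := Nat.ModEq.mul_right_cancel' hq.ne' h4
      have h6 : (7 : ℤ) ∣ (j : ℤ) - c := by
        have := (Nat.modEq_iff_dvd.1 h5.symm)
        exact_mod_cast this
      have h7 := hJ (j : ℤ) ⟨i, hi, by
        have h8 : (j : ℤ) - i * d = ((j : ℤ) - c) + (c - i * d) := by ring
        have h9 : (4 * ((2 : ℕ) : ℤ) - 1) = 7 := by norm_num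
        rw [h9, h8]
        exact dvd_add h6 hci⟩
      exact_mod_cast h7
    have f0 := hfull 0 ⟨0, by norm_num, by norm_num⟩
    have f1 := hfull a ⟨1, by norm_num, by simpa using had⟩
    have f2 := hfull (7 - a) ⟨-1, by norm_num, by
      have h1 : (((7 - a : ℕ) : ℤ)) = 7 - a := by omega
      rw [h1]
      have h2 : (7 : ℤ) - a - -1 * d = 7 - ((a : ℤ) - d) := by ring
      rw [h2]
      exact dvd_sub dvd_rfl had⟩
    intro e he
    have hM0 : 0 < 7 * q := by omega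
    obtain ⟨L0, hL0⟩ := cnt_full hM0 f0 (e / 3) (by positivity)
    obtain ⟨L1, hL1⟩ := cnt_full hM0 f1 (e / 3) (by positivity)
    obtain ⟨L2, hL2⟩ := cnt_full hM0 f2 (e / 3) (by positivity)
    refine ⟨L0 + L1 + L2, fun n hn x => ?_⟩
    have g0 := hL0 n (by omega) x
    have g1 := hL1 n (by omega) x
    have g2 := hL2 n (by omega) x
    have g3 : ((cnt D (7 * q) (0 * q) x n + cnt D (7 * q) (a * q) x n +
        cnt D (7 * q) ((7 - a) * q) x n : ℕ) : ℝ) ≤ cnt D q 0 x n := by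
      exact_mod_cast cnt_seven D hq a ha0 ha x n
    push_cast at g3
    change _ ≤ (cnt D q 0 x n : ℝ)
    have hqR : (0 : ℝ) < q := by exact_mod_cast hq
    have h13 : (3 / 7 / (q : ℝ) - e) * n = 3 * ((1 / ((7 * q : ℕ) : ℝ) - e / 3) * n) := by
      push_cast
      field_simp
    rw [h13]
    linarith

end Pool.Agent.Lib_helper20.FS
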