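import Pool.Agent.Lib_helper20.FS.Core
import Pool.Agent.Lib_helper20.FS.Sevenths

/-!
# The classes modulo `3 Q q`
-/

set_option autoImplicit false

namespace Pool.Agent.Lib_helper20.FS

open Finset Filter Pool.Agent.AAM Pool.Agent.Lib_helper31.DIC

/-- the type of a class -/
noncomputable def pi3 (Q : ℕ) : ZMod (3 * Q) →+* ZMod 3 := ZMod.castHom (dvd_mul_right 3 Q) (ZMod 3)

theorem pi3_val {Q : ℕ} [NeZero (3 * Q)] (i : ZMod (3 * Q)) :
    pi3 Q i = ((i.val : ℕ) : ZMod 3) := by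
  conv_lhs => rw [← ZMod.natCast_zmod_val i]
  exact map_natCast _ _

theorem modEq_iff_class {N q : ℕ} [NeZero N] (hq : 0 < q) (i : ZMod N) (y : ℕ) :
    y ≡ i.val * q [MOD N * q] ↔ ∃ j : ℕ, y = q * j ∧ (j : ZMod N) = i := by
  constructor
  · intro h
    have h1 : q ∣ y := by
      have h2 : y ≡ i.val * q [MOD q] := h.of_dvd (dvd_mul_left _ _)
      exact (Nat.modEq_zero_iff_dvd).1 (h2.trans ((Nat.modEq_zero_iff_dvd).2 (dvd_mul_left _ _)))
    obtain ⟨j, rfl⟩ := h1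
    refine ⟨j, rfl, ?_⟩
    rw [mul_comm q j] at h
    have h2 : j ≡ i.val [MOD N] := Nat.ModEq.mul_right_cancel' hq.ne' h
    have h3 := (ZMod.natCast_eq_natCast_iff _ _ _).2 h2
    rw [h3, ZMod.natCast_zmod_val]
  · rintro ⟨j, rfl, h⟩
    rw [mul_comm q j]
    refine Nat.ModEq.mul_right' q ?_
    rw [← ZMod.natCast_eq_natCast_iff, h, ZMod.natCast_zmod_val]

/-- the count in the class `i` -/
noncomputable def ac (D : Set ℕ) (Q q x n : ℕ) (i : ZMod (3 * Q)) : ℝ :=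
  cnt D (3 * Q * q) (i.val * q) x n

theorem ac_nonneg (D : Set ℕ) (Q q x n : ℕ) (i : ZMod (3 * Q)) : 0 ≤ ac D Q q x n i :=
  Nat.cast_nonneg _

/-- all classes -/
theorem sum_ac_le (D : Set ℕ) {Q q : ℕ} [NeZero (3 * Q)] (hq : 0 < q) (x n : ℕ) :
    ∑ i, ac D Q q x n i ≤ cnt D q 0 x n := by
  classical
  have h1 : ∑ i : ZMod (3 * Q), cnt D (3 * Q * q) (i.val * q) x n ≤ cnt D q 0 x n := by
    rw [cnt_eq]
    rw [card_eq_sum_card_fiberwise (f := fun y => ((y / q : ℕ) : ZMod (3 * Q))) (t := univ)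
      (fun _ _ => by simp)]
    refine sum_le_sum fun i _ => ?_
    rw [cnt_eq]
    refine card_le_card fun y hy => ?_
    rw [mem_filter] at hy
    obtain ⟨hy1, hy2, hy3⟩ := hy
    obtain ⟨j, rfl, hj⟩ := (modEq_iff_class hq i y).1 hy2
    rw [mem_filter, mem_filter]
    refine ⟨⟨hy1, (Nat.modEq_zero_iff_dvd).2 (dvd_mul_right _ _), hy3⟩, ?_⟩
    rw [Nat.mul_div_cancel_left j hq]
    exact hj
  unfold ac
  exact_mod_cast h1

/-- the classes of type `t` -/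
theorem le_sum_ac (D : Set ℕ) {Q q : ℕ} [NeZero (3 * Q)] (hq : 0 < q) (t : ℕ) (x n : ℕ) :
    (cnt D (3 * q) (t * q) x n : ℝ) ≤ ∑ i ∈ ty (pi3 Q) (t : ZMod 3), ac D Q q x n i := by
  classical
  have h1 : cnt D (3 * q) (t * q) x n ≤
      ∑ i ∈ ty (pi3 Q) (t : ZMod 3), cnt D (3 * Q * q) (i.val * q) x n := by
    rw [cnt_eq]
    rw [card_eq_sum_card_fiberwise (f := fun y => ((y / q : ℕ) : ZMod (3 * Q)))
      (t := ty (pi3 Q) (t : ZMod 3)) (fun y hy => by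
        rw [mem_coe, mem_filter] at hy
        obtain ⟨hy1, hy2, hy3⟩ := hy
        have h2 : q ∣ y := by
          have h2 : y ≡ t * q [MOD q] := hy2.of_dvd (dvd_mul_left _ _)
          exact (Nat.modEq_zero_iff_dvd).1
            (h2.trans ((Nat.modEq_zero_iff_dvd).2 (dvd_mul_left _ _)))
        obtain ⟨j, rfl⟩ := h2
        rw [mem_coe, mem_ty]
        show pi3 Q ((q * j / q : ℕ) : ZMod (3 * Q)) = _
        rw [Nat.mul_div_cancel_left j hq, map_natCast]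
        rw [mul_comm q j] at hy2
        exact (ZMod.natCast_eq_natCast_iff _ _ _).2 (Nat.ModEq.mul_right_cancel' hq.ne' hy2))]
    refine sum_le_sum fun i _ => ?_
    rw [cnt_eq]
    refine card_le_card fun y hy => ?_
    rw [mem_filter, mem_filter] at hy
    obtain ⟨⟨hy1, hy2, hy3⟩, hy4⟩ := hy
    have h2 : q ∣ y := by
      have h2 : y ≡ t * q [MOD q] := hy2.of_dvd (dvd_mul_left _ _)
      exact (Nat.modEq_zero_iff_dvd).1 (h2.trans ((Nat.modEq_zero_iff_dvd).2 (dvd_mul_left _ _)))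
    obtain ⟨j, rfl⟩ := h2
    rw [Nat.mul_div_cancel_left j hq] at hy4
    rw [mem_filter]
    exact ⟨hy1, (modEq_iff_class hq i (q * j)).2 ⟨j, rfl, hy4⟩, hy3⟩
  unfold ac
  exact_mod_cast h1

/-- three terms for classes -/
theorem three_ac {D : Set ℕ} (hP : Pairs D) (h0 : 0 ∉ D) {Q q : ℕ} [NeZero (3 * Q)] (hQ : 0 < Q)
    (hq : 0 < q) (hq2 : Even q) (c b : ZMod (3 * Q)) (hb : pi3 Q b = 0)
    (hc : ¬ AlmostAllOf D {d | d ≡ c.val * q [MOD 3 * Q * q]}) (e : ℝ) (he : 0 < e) :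
    ∃ L : ℕ, ∀ n ≥ L, ∀ x : ℕ, (1 / ((3 * Q * q : ℕ) : ℝ) - e) * n ≤
      ac D Q q x n (b - c) + ac D Q q x n b + ac D Q q x n (b + c) := by
  have hM0 : 0 < 3 * Q * q := by positivity
  have hM : 6 ∣ 3 * Q * q := by
    obtain ⟨m, hm⟩ := hq2.two_dvd
    exact ⟨Q * m, by rw [hm]; ring⟩
  have h3 : 3 ∣ b.val := by
    rw [pi3_val] at hb
    exact (ZMod.natCast_eq_zero_iff _ _).1 hb
  refine three_classes hP h0 (3 * Q * q) hM0 hM (c.val * q) (b.val * q) ((b - c).val * q)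
    ((b + c).val * q) (hq2.mul_left _) (hq2.mul_left _) (Or.inr (h3.mul_right q)) ?_ ?_
    (posBanach_of_not hc) e he
  · rw [← Nat.add_mul]
    refine Nat.ModEq.mul_right' q ?_
    rw [← ZMod.natCast_eq_natCast_iff]
    push_cast
    rw [ZMod.natCast_zmod_val, ZMod.natCast_zmod_val, ZMod.natCast_zmod_val]
    ring
  · rw [← Nat.add_mul]
    refine Nat.ModEq.mul_right' q ?_
    rw [← ZMod.natCast_eq_natCast_iff]
    push_cast
    rw [ZMod.natCast_zmod_val, ZMod.natCast_zmod_val, ZMod.natCast_zmod_val]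

end Pool.Agent.Lib_helper20.FS
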