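import Mathlib

/-!
# Sequences all of whose sums of three consecutive terms are at least `u`

Adapted from `FSX_Core_helper32.lean` (helper32), in the unit `u`.
-/

set_option autoImplicit false

namespace Pool.Agent.Lib_helper20.FS

open Finset

/-- sums over `range L` and over `ZMod L` -/
theorem sum_range_zmod {L : ℕ} [NeZero L] (f : ZMod L → ℝ) :
    ∑ n ∈ range L, f (n : ZMod L) = ∑ x : ZMod L, f x := by
  symm
  refine Finset.sum_nbij' (fun x => x.val) (fun n => (n : ZMod L)) ?_ ?_ ?_ ?_ ?_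
  · intro x _; exact Finset.mem_range.mpr x.val_lt
  · intro r _; exact Finset.mem_univ _
  · intro x _; exact ZMod.natCast_zmod_val x
  · intro r hr; exact ZMod.val_cast_of_lt (Finset.mem_range.mp hr)
  · intro x _; rw [ZMod.natCast_zmod_val]

/-- `k` triples of consecutive numbers -/
theorem triples {h : ℕ → ℝ} {u : ℝ} (h3 : ∀ n, u ≤ h n + h (n + 1) + h (n + 2)) (a k : ℕ) :
    (k : ℝ) * u ≤ ∑ n ∈ range (3 * k), h (a + n) := by
  induction k with
  | zero => simp
  | succ k ih =>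
    have h1 : 3 * (k + 1) = 3 * k + 1 + 1 + 1 := by ring
    rw [h1, sum_range_succ, sum_range_succ, sum_range_succ]
    have h2 := h3 (a + 3 * k)
    push_cast
    have e1 : a + (3 * k + 1) = a + 3 * k + 1 := by ring
    have e2 : a + (3 * k + 1 + 1) = a + 3 * k + 2 := by ring
    rw [e1, e2]
    linarith

/-- a point and `k` triples -/
theorem point_triples {h : ℕ → ℝ} {u : ℝ} (h3 : ∀ n, u ≤ h n + h (n + 1) + h (n + 2))
    (h0 : u ≤ h 0) (k : ℕ) : ((k : ℝ) + 1) * u ≤ ∑ n ∈ range (3 * k + 1), h n := by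
  rw [sum_range_succ']
  have h1 := triples h3 1 k
  have h2 : ∑ n ∈ range (3 * k), h (n + 1) = ∑ n ∈ range (3 * k), h (1 + n) :=
    sum_congr rfl fun n _ => by rw [add_comm]
  rw [h2]
  linarith

/-- all points but one -/
theorem omit_point {h : ℕ → ℝ} {u : ℝ} (hn : ∀ n, 0 ≤ h n)
    (h3 : ∀ n, u ≤ h n + h (n + 1) + h (n + 2)) (h0 : u ≤ h 0) {k m : ℕ} (hm : m < k) :
    (k : ℝ) * u + h (3 * m + 1) ≤ ∑ n ∈ range (3 * k), h n := by
  obtain ⟨j, rfl⟩ : ∃ j, k = m + 1 + j := ⟨k - (m + 1), by omega⟩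
  have h1 : 3 * (m + 1 + j) = (3 * m + 1) + (1 + (3 * j + 1)) := by ring
  rw [h1, sum_range_add, Nat.add_comm 1 (3 * j + 1), ← Nat.add_comm 1 (3 * j + 1),
    sum_range_add (fun x => h (3 * m + 1 + x)) 1]
  have h2 := point_triples h3 h0 m
  have h4 := triples h3 (3 * m + 1 + 1) j
  have h5 : ∑ x ∈ range 1, h (3 * m + 1 + x) = h (3 * m + 1) := by simp
  have h6 : ∑ x ∈ range (3 * j), h (3 * m + 1 + 1 + x) ≤
      ∑ x ∈ range (3 * j + 1), h (3 * m + 1 + (1 + x)) := by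
    rw [sum_range_succ]
    have h7 : ∑ x ∈ range (3 * j), h (3 * m + 1 + (1 + x)) =
        ∑ x ∈ range (3 * j), h (3 * m + 1 + 1 + x) :=
      sum_congr rfl fun n _ => by rw [← add_assoc]
    rw [h7]
    have := hn (3 * m + 1 + (1 + 3 * j))
    linarith
  rw [h5]
  push_cast
  linarith

/-- the inequality for sequences -/
theorem seq_bound {h : ℕ → ℝ} {u : ℝ} {L : ℕ} (hu : 0 ≤ u) (hn : ∀ n, 0 ≤ h n)
    (hper : ∀ n, h (n + L) = h n) (h3 : ∀ n, u ≤ h n + h (n + 1) + h (n + 2))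
    (h0 : u ≤ h 0) (h9 : 3 ∣ L → u ≤ h 1 + h 10 + h 19) (hL : 3 ∣ L → 12 < L) :
    ((L : ℝ) + 1) / 3 * u ≤ ∑ n ∈ range L, h n := by
  have hcases : (∃ k, L = 3 * k) ∨ (∃ k, L = 3 * k + 1) ∨ ∃ k, L = 3 * k + 1 + 1 := by
    rcases (by omega : L % 3 = 0 ∨ L % 3 = 1 ∨ L % 3 = 2) with h | h | h
    · exact Or.inl ⟨L / 3, by omega⟩
    · exact Or.inr (Or.inl ⟨L / 3, by omega⟩)
    · exact Or.inr (Or.inr ⟨L / 3, by omega⟩)
  rcases hcases with ⟨k, rfl⟩ | ⟨k, rfl⟩ | ⟨k, rfl⟩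
  · have h9' := h9 (dvd_mul_right 3 k)
    have hk : 12 < 3 * k := hL (dvd_mul_right 3 k)
    set S := ∑ n ∈ range (3 * k), h n with hS
    have key : ∀ m, m < k → h (3 * m + 1) ≤ S - k * u := by
      intro m hm
      have := omit_point hn h3 h0 hm
      linarith
    have key' : ∀ m, h (3 * m + 1) ≤ S - k * u := by
      intro m
      induction m using Nat.strong_induction_on with
      | _ m ih =>
        by_cases hm : m < k
        · exact key m hm
        · push Not at hm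
          obtain ⟨j, rfl⟩ := Nat.exists_eq_add_of_le hm
          have h1 : 3 * (k + j) + 1 = 3 * j + 1 + 3 * k := by ring
          rw [h1, hper]
          exact ih j (by omega)
    have k1 := key' 0
    have k2 := key' 3
    have k3 := key' 6
    norm_num at k1 k2 k3
    push_cast
    linarith
  · have h1 := point_triples h3 h0 k
    push_cast
    linarith
  · rw [sum_range_succ]
    have h1 := point_triples h3 h0 k
    have h2 := hn (3 * k + 1)
    push_cast
    linarith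

/-- the inequality for functions on `ZMod L` -/
theorem zmod_bound {L : ℕ} [NeZero L] {f : ZMod L → ℝ} {v : ℝ} (hv : 0 ≤ v) (hn : ∀ x, 0 ≤ f x)
    (u : (ZMod L)ˣ) (x₀ : ZMod L) (h0 : v ≤ f x₀)
    (h1 : ∀ x, v ≤ f (x - u) + f x + f (x + u))
    (h9 : 3 ∣ L → ∀ x, v ≤ f (x - 9 * u) + f x + f (x + 9 * u)) (hL : 3 ∣ L → 12 < L) :
    ((L : ℝ) + 1) / 3 * v ≤ ∑ x, f x := by
  have hsum : ∑ n ∈ range L, f (x₀ + (u : ZMod L) * (n : ZMod L)) = ∑ x, f x := by
    rw [sum_range_zmod (fun y => f (x₀ + (u : ZMod L) * y))]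
    exact (Equiv.sum_comp (Units.mulLeft u) (fun y => f (x₀ + y))).trans
      (Equiv.sum_comp (Equiv.addLeft x₀) f)
  rw [← hsum]
  refine seq_bound (h := fun n : ℕ => f (x₀ + (u : ZMod L) * (n : ZMod L))) hv (fun n => hn _)
    ?_ ?_ ?_ ?_ hL
  · intro n
    simp
  · intro n
    have h2 := h1 (x₀ + (u : ZMod L) * ((n : ZMod L) + 1))
    have e1 : x₀ + (u : ZMod L) * ((n : ZMod L) + 1) - u = x₀ + u * (n : ZMod L) := by ring
    have e2 : x₀ + (u : ZMod L) * ((n : ZMod L) + 1) + u = x₀ + u * ((n : ZMod L) + 2) := by ring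
    rw [e1, e2] at h2
    push_cast
    exact h2
  · simpa using h0
  · intro h3
    have h2 := h9 h3 (x₀ + (u : ZMod L) * (10 : ZMod L))
    have e1 : x₀ + (u : ZMod L) * (10 : ZMod L) - 9 * u = x₀ + u * (1 : ZMod L) := by ring
    have e2 : x₀ + (u : ZMod L) * (10 : ZMod L) + 9 * u = x₀ + u * (19 : ZMod L) := by ring
    rw [e1, e2] at h2
    push_cast
    exact h2

end Pool.Agent.Lib_helper20.FS
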