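import Pool.Agent.Lib_helper20.FS.Classes
import Pool.Agent.Lib_helper20.FS.Seq

/-!
# The finite core for every `r ≥ 2`
-/

set_option autoImplicit false

namespace Pool.Agent.Lib_helper20.FS

open Finset

/-- multiplication by `3` from `ZMod Q` to `ZMod (3 Q)` -/
noncomputable def m3 (Q : ℕ) : ZMod Q →+ ZMod (3 * Q) :=
  ZMod.lift Q ⟨zmultiplesHom (ZMod (3 * Q)) 3, by
    rw [zmultiplesHom_apply, natCast_zsmul, nsmul_eq_mul]
    have h := ZMod.natCast_self (3 * Q)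
    push_cast at h
    linear_combination h⟩

theorem m3_int (Q : ℕ) (z : ℤ) : m3 Q (z : ZMod Q) = ((3 * z : ℤ) : ZMod (3 * Q)) := by
  unfold m3
  rw [ZMod.lift_coe]
  show zmultiplesHom (ZMod (3 * Q)) 3 z = _
  rw [zmultiplesHom_apply, zsmul_eq_mul]
  push_cast
  ring

theorem pi3_m3 (Q : ℕ) (x : ZMod Q) : pi3 Q (m3 Q x) = 0 := by
  obtain ⟨z, rfl⟩ := ZMod.intCast_surjective x
  rw [m3_int, map_intCast]
  push_cast
  have h3 : (3 : ZMod 3) = 0 := rfl
  rw [h3, zero_mul]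

theorem m3_injective {Q : ℕ} : Function.Injective (m3 Q) := by
  intro x y h
  obtain ⟨z, rfl⟩ := ZMod.intCast_surjective x
  obtain ⟨w, rfl⟩ := ZMod.intCast_surjective y
  rw [m3_int, m3_int, ZMod.intCast_eq_intCast_iff_dvd_sub] at h
  rw [ZMod.intCast_eq_intCast_iff_dvd_sub]
  push_cast at h
  rw [← mul_sub] at h
  exact Int.dvd_of_mul_dvd_mul_left (by norm_num) h

theorem m3_surj {Q : ℕ} [NeZero (3 * Q)] (i : ZMod (3 * Q)) (hi : pi3 Q i = 0) :
    ∃ x, m3 Q x = i := by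
  rw [pi3_val] at hi
  obtain ⟨k, hk⟩ := (ZMod.natCast_eq_zero_iff _ _).1 hi
  refine ⟨((k : ℤ) : ZMod Q), ?_⟩
  rw [m3_int, ← ZMod.natCast_zmod_val i, hk]
  push_cast
  rfl

theorem sum_emb {Q : ℕ} [NeZero Q] [NeZero (3 * Q)] (a : ZMod (3 * Q) → ℝ) (t : ZMod (3 * Q)) :
    ∑ x : ZMod Q, a (t + m3 Q x) = ∑ i ∈ ty (pi3 Q) (pi3 Q t), a i := by
  refine sum_bij (fun x _ => t + m3 Q x) (fun x _ => ?_) (fun x _ y _ h => ?_) (fun i hi => ?_)
    (fun x _ => rfl)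
  · rw [mem_ty, map_add, pi3_m3, add_zero]
  · exact m3_injective (add_left_cancel h)
  · rw [mem_ty] at hi
    obtain ⟨x, hx⟩ := m3_surj (i - t) (by rw [map_sub, hi, sub_self])
    exact ⟨x, mem_univ _, by rw [hx]; ring⟩

theorem card_ty {Q : ℕ} [NeZero Q] [NeZero (3 * Q)] (t : ZMod (3 * Q)) :
    #(ty (pi3 Q) (pi3 Q t)) = Q := by
  have h := sum_emb (fun _ => (1 : ℝ)) t
  rw [sum_const, sum_const, card_univ, ZMod.card, nsmul_eq_mul, nsmul_eq_mul, mul_one, mul_one] at h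
  exact_mod_cast h.symm

open Classical in
/-- **the finite core**, every `r ≥ 2` -/
theorem core_gen {Q r : ℕ} [NeZero Q] [NeZero (3 * Q)] (hr : 2 ≤ r) (hQ : Q + 1 = 4 * r)
    (a : ZMod (3 * Q) → ℝ) (ha : ∀ i, 0 ≤ a i) (full : ZMod (3 * Q) → Prop) (u : ℝ) (hu : 0 ≤ u)
    (hfull : ∀ i, full i → u ≤ a i) (K : Finset (ZMod (3 * Q))) (hK : #K = 2 * r - 1)
    (hK0 : ∀ i ∈ K, pi3 Q i = 0) (hKu : ∀ i ∈ K, full i) (v : (ZMod Q)ˣ) (hv : m3 Q v ∉ K)
    (hv9 : 3 ∣ Q → m3 Q (9 * v) ∉ K)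
    (hJ : ∀ c b, ¬ full c → pi3 Q b = 0 → u ≤ a (b - c) + a b + a (b + c))
    (hJ' : ∀ c b, ¬ full c → pi3 Q c = 0 → u ≤ a (b - c) + a b + a (b + c))
    (hX : (Q : ℝ) / 3 * u ≤ ∑ i ∈ ty (pi3 Q) 1, a i)
    (hY : (Q : ℝ) / 3 * u ≤ ∑ i ∈ ty (pi3 Q) 2, a i) :
    7 / 18 * (3 * Q) * u ≤ ∑ i, a i := by
  have hrR : (2 : ℝ) ≤ r := by exact_mod_cast hr
  have hQR : (Q : ℝ) = 4 * r - 1 := by
    have h : ((Q + 1 : ℕ) : ℝ) = ((4 * r : ℕ) : ℝ) := by rw [hQ]
    push_cast at h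
    linarith
  have hru : 2 * u ≤ r * u := mul_le_mul_of_nonneg_right hrR hu
  have hKR : ((2 * r - 1 : ℕ) : ℝ) = 2 * r - 1 := by
    rw [Nat.cast_sub (by omega)]
    push_cast
    ring
  have hKs : K ⊆ ty (pi3 Q) 0 := fun i hi => (mem_ty (pi3 Q) 0 i).2 (hK0 i hi)
  rw [sum_types (pi3 Q) a]
  rw [hQR] at hX hY ⊢
  by_cases hc1 : ∃ i, pi3 Q i = 0 ∧ i ∉ K ∧ full i
  · obtain ⟨i, hi0, hiK, hif⟩ := hc1
    have h1 : ((2 * r : ℕ) : ℝ) * u ≤ ∑ i ∈ ty (pi3 Q) 0, a i := by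
      have h2 : insert i K ⊆ ty (pi3 Q) 0 := by
        intro j hj
        rw [mem_insert] at hj
        rcases hj with rfl | hj
        · exact (mem_ty (pi3 Q) 0 _).2 hi0
        · exact hKs hj
      have h3 : #(insert i K) = 2 * r := by
        rw [card_insert_of_notMem hiK, hK]
        omega
      have h4 : ∑ j ∈ insert i K, u ≤ ∑ j ∈ insert i K, a j := sum_le_sum fun j hj => by
        rw [mem_insert] at hj
        rcases hj with rfl | hj
        · exact hfull _ hif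
        · exact hfull _ (hKu j hj)
      rw [sum_const, h3, nsmul_eq_mul] at h4
      exact h4.trans (sum_le_sum_of_subset_of_nonneg h2 fun j _ _ => ha j)
    push_cast at h1
    linarith
  push Not at hc1
  have hKsum : ((2 * r - 1 : ℕ) : ℝ) * u ≤ ∑ b ∈ K, a b := by
    have h := sum_le_sum (s := K) fun b hb => hfull b (hKu b hb)
    rwa [sum_const, nsmul_eq_mul, hK] at h
  rw [hKR] at hKsum
  have hKsum' : ∑ b ∈ K, a b ≤ ∑ i ∈ ty (pi3 Q) 0, a i :=
    sum_le_sum_of_subset_of_nonneg hKs fun j _ _ => ha j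
  by_cases hc2 : ∃ c, pi3 Q c = 1 ∧ full c ∧ full (-c)
  · obtain ⟨c, hc, hcf, hcf'⟩ := hc2
    have hL : 3 ∣ Q → 12 < Q := by
      intro h
      omega
    have key : ∀ t, full t → ((Q : ℝ) + 1) / 3 * u ≤ ∑ i ∈ ty (pi3 Q) (pi3 Q t), a i := by
      intro t ht
      rw [← sum_emb]
      refine zmod_bound (f := fun x => a (t + m3 Q x)) hu (fun x => ha _) v 0 ?_ (fun x => ?_)
        (fun h3 x => ?_) hL
      · show u ≤ a (t + m3 Q 0)
        rw [map_zero, add_zero]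
        exact hfull t ht
      · have h := hJ' (m3 Q v) (t + m3 Q x) (fun hf => hv (by
          by_contra hn
          exact hc1 _ (pi3_m3 Q v) hn hf)) (pi3_m3 Q v)
        show u ≤ a (t + m3 Q (x - v)) + a (t + m3 Q x) + a (t + m3 Q (x + v))
        rw [map_sub, map_add]
        have e1 : t + (m3 Q x - m3 Q v) = t + m3 Q x - m3 Q v := by ring
        have e2 : t + (m3 Q x + m3 Q v) = t + m3 Q x + m3 Q v := by ring
        rw [e1, e2]
        exact h
      · have h := hJ' (m3 Q (9 * v)) (t + m3 Q x) (fun hf => hv9 h3 (by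
          by_contra hn
          exact hc1 _ (pi3_m3 Q _) hn hf)) (pi3_m3 Q _)
        show u ≤ a (t + m3 Q (x - 9 * v)) + a (t + m3 Q x) + a (t + m3 Q (x + 9 * v))
        rw [map_sub, map_add]
        have e1 : t + (m3 Q x - m3 Q (9 * v)) = t + m3 Q x - m3 Q (9 * v) := by ring
        have e2 : t + (m3 Q x + m3 Q (9 * v)) = t + m3 Q x + m3 Q (9 * v) := by ring
        rw [e1, e2]
        exact h
    have k1 := key c hcf
    have k2 := key (-c) hcf'
    rw [map_neg, hc] at k2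
    rw [hc] at k1
    have h21 : (-1 : ZMod 3) = 2 := by decide
    rw [h21] at k2
    rw [hQR] at k1 k2
    linarith
  · push Not at hc2
    have hcard0 : #(ty (pi3 Q) 0) = Q := by
      have := card_ty (Q := Q) 0
      rwa [map_zero] at this
    have hcard1 : #(ty (pi3 Q) 1) = Q := by
      have := card_ty (Q := Q) 1
      rwa [map_one] at this
    have hfil : ((ty (pi3 Q) 1).filter fun c => ¬ (full c ∧ full (-c))) = ty (pi3 Q) 1 := by
      refine filter_true_of_mem fun c hc => ?_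
      rintro ⟨h1, h2⟩
      exact hc2 c ((mem_ty (pi3 Q) 1 c).1 hc) h1 h2
    set W := ∑ i ∈ ty (pi3 Q) 1, a i + ∑ i ∈ ty (pi3 Q) 2, a i with hW
    have hcen : ∀ b ∈ ty (pi3 Q) 0 \ K, (Q : ℝ) * u ≤ W + Q * a b := by
      intro b hb
      have hb0 : pi3 Q b = 0 := (mem_ty (pi3 Q) 0 b).1 (mem_sdiff.1 hb).1
      have h := center (pi3 Q) a ha full u hJ b hb0
      rw [hfil, hcard1, ← hW] at h
      exact h
    have hcard : #(ty (pi3 Q) 0 \ K) = 2 * r := by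
      rw [card_sdiff_of_subset hKs, hcard0, hK]
      omega
    have hC := sum_le_sum hcen
    rw [sum_const, sum_add_distrib, sum_const, hcard, nsmul_eq_mul, nsmul_eq_mul, ← mul_sum] at hC
    have hA0 : ∑ i ∈ ty (pi3 Q) 0, a i = ∑ b ∈ ty (pi3 Q) 0 \ K, a b + ∑ b ∈ K, a b :=
      (sum_sdiff hKs).symm
    set S := ∑ b ∈ ty (pi3 Q) 0 \ K, a b with hS
    rw [hA0]
    have hW2 : 2 * ((4 * (r : ℝ) - 1) / 3 * u) ≤ W := by rw [hW]; linarith
    push_cast at hC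
    rw [hQR] at hC
    -- multiply by `Q = 4 r - 1`
    have hpos : (0 : ℝ) < 4 * r - 1 := by linarith
    have h5 : (4 * (r : ℝ) - 1) * (7 / 18 * (3 * (4 * r - 1)) * u) ≤
        (4 * r - 1) * (S + ∑ b ∈ K, a b + W) := by
      have h6 := mul_le_mul_of_nonneg_left hKsum hpos.le
      have h7 := mul_le_mul_of_nonneg_left hW2 (by linarith : (0 : ℝ) ≤ 2 * r - 1)
      have h8 : 0 ≤ ((r : ℝ) - 2) * u := mul_nonneg (by linarith) hu
      have h9 : 0 ≤ ((r : ℝ) - 2) * (((r : ℝ) - 2) * u) := mul_nonneg (by linarith) h8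
      nlinarith [h6, h7, h8, h9, hC]
    have h6 := le_of_mul_le_mul_left h5 hpos
    rw [hW] at h6
    linarith

end Pool.Agent.Lib_helper20.FS
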