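import Pool.Agent.Lib_helper20.FS.CoreGen

/-!
# Seven eighteenths in the case `r ≥ 2`
-/

set_option autoImplicit false

namespace Pool.Agent.Lib_helper20.FS

open Finset Filter Pool.Agent.AAM Pool.Agent.Lib_helper31.DIC

/-- three terms for classes, `c` divisible by `3` -/
theorem three_ac' {D : Set ℕ} (hP : Pairs D) (h0 : 0 ∉ D) {Q q : ℕ} [NeZero (3 * Q)] (hQ : 0 < Q)
    (hq : 0 < q) (hq2 : Even q) (c b : ZMod (3 * Q)) (hc0 : pi3 Q c = 0)
    (hc : ¬ AlmostAllOf D {d | d ≡ c.val * q [MOD 3 * Q * q]}) (e : ℝ) (he : 0 < e) :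
    ∃ L : ℕ, ∀ n ≥ L, ∀ x : ℕ, (1 / ((3 * Q * q : ℕ) : ℝ) - e) * n ≤
      ac D Q q x n (b - c) + ac D Q q x n b + ac D Q q x n (b + c) := by
  have hM0 : 0 < 3 * Q * q := by positivity
  have hM : 6 ∣ 3 * Q * q := by
    obtain ⟨m, hm⟩ := hq2.two_dvd
    exact ⟨Q * m, by rw [hm]; ring⟩
  have h3 : 3 ∣ c.val := by
    rw [pi3_val] at hc0
    exact (ZMod.natCast_eq_zero_iff _ _).1 hc0
  refine three_classes hP h0 (3 * Q * q) hM0 hM (c.val * q) (b.val * q) ((b - c).val * q)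
    ((b + c).val * q) (hq2.mul_left _) (hq2.mul_left _) (Or.inl (h3.mul_right q)) ?_ ?_
    (posBanach_of_not hc) e he
  · rw [← Nat.add_mul]
    refine Nat.ModEq.mul_right' q ?_
    rw [← ZMod.natCast_eq_natCast_iff]
    push_cast
    rw [ZMod.natCast_zmod_val, ZMod.natCast_zmod_val, ZMod.natCast_zmod_val]
    ring
  · rw [← Nat.add_mul]
    refine Nat.ModEq.mul_right' q ?_
    rw [← ZMod.natCast_eq_natCast_iff]
    push_cast
    rw [ZMod.natCast_zmod_val, ZMod.natCast_zmod_val, ZMod.natCast_zmod_val]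

/-- the classes given by the structure theorem -/
theorem exists_K' {D : Set ℕ} {q : ℕ} (hq : 0 < q) (Q r : ℕ) [NeZero (3 * Q)] (hr : 0 < r)
    (hQ : (Q : ℤ) = 4 * r - 1) (J : Finset (ZMod Q)) (e : ℤ) (he : IsCoprime e (Q : ℤ))
    (hJ : ∀ n : ℤ, (∃ i : ℤ, |i| < r ∧ (Q : ℤ) ∣ n - i * e) → (n : ZMod Q) ∈ J)
    (hW : AlmostAllOf D {d : ℕ | ∃ i : ℕ, d = 3 * q * i ∧ (i : ZMod Q) ∈ J}) :
    ∃ K : Finset (ZMod (3 * Q)), #K = 2 * r - 1 ∧ (∀ i ∈ K, pi3 Q i = 0) ∧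
      (∀ i ∈ K, AlmostAllOf D {d | d ≡ i.val * q [MOD 3 * Q * q]}) ∧
      ∀ m : ℤ, (∀ j : ℤ, |j| < r → ¬ (Q : ℤ) ∣ m - j) → m3 Q ((m * e : ℤ) : ZMod Q) ∉ K := by
  classical
  refine ⟨(Icc (-((r : ℤ) - 1)) (r - 1)).image fun j => ((3 * (j * e) : ℤ) : ZMod (3 * Q)),
    ?_, ?_, ?_, ?_⟩
  · rw [card_image_of_injOn, Int.card_Icc]
    · omega
    · intro j hj j' hj' h
      rw [mem_coe, mem_Icc] at hj hj'
      have h1 : ((3 * (j * e) : ℤ) : ZMod (3 * Q)) = ((3 * (j' * e) : ℤ) : ZMod (3 * Q)) := h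
      rw [ZMod.intCast_eq_intCast_iff_dvd_sub] at h1
      push_cast at h1
      have h2 : (3 : ℤ) * Q ∣ 3 * ((j' - j) * e) := by
        have h3 : (3 : ℤ) * ((j' - j) * e) = 3 * (j' * e) - 3 * (j * e) := by ring
        rw [h3]
        exact h1
      have h3 : (Q : ℤ) ∣ (j' - j) * e := Int.dvd_of_mul_dvd_mul_left (by norm_num) h2
      have h4 : (Q : ℤ) ∣ j' - j := he.symm.dvd_of_dvd_mul_right h3
      by_contra hne
      have h5 : (Q : ℤ) ≤ |j' - j| := Int.le_of_dvd (abs_pos.2 (by omega)) ((dvd_abs _ _).2 h4)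
      have h6 : |j' - j| ≤ 2 * ((r : ℤ) - 1) := abs_le.2 ⟨by omega, by omega⟩
      omega
  · intro i hi
    rw [mem_image] at hi
    obtain ⟨j, hj, rfl⟩ := hi
    rw [map_intCast]
    push_cast
    have h3 : (3 : ZMod 3) = 0 := rfl
    rw [h3, zero_mul]
  · intro i hi
    rw [mem_image] at hi
    obtain ⟨j, hj, rfl⟩ := hi
    rw [mem_Icc] at hj
    refine hW.mono fun y hy => ?_
    obtain ⟨l, rfl, hl⟩ := (modEq_iff_class hq _ y).1 hy
    have h1 : ((l : ℤ) : ZMod (3 * Q)) = ((3 * (j * e) : ℤ) : ZMod (3 * Q)) := by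
      rw [Int.cast_natCast]
      exact hl
    rw [eq_comm, ZMod.intCast_eq_intCast_iff_dvd_sub] at h1
    push_cast at h1
    obtain ⟨m, hm⟩ := h1
    have h2 : (l : ℤ) = 3 * (Q * m + j * e) := by linear_combination hm
    obtain ⟨t, ht⟩ : ∃ t : ℕ, l = 3 * t := ⟨l / 3, by omega⟩
    have h3 : (t : ℤ) = Q * m + j * e := by
      have h4 : (l : ℤ) = 3 * t := by exact_mod_cast ht
      omega
    refine ⟨t, by rw [ht]; ring, ?_⟩
    have h5 := hJ (t : ℤ) ⟨j, abs_lt.2 ⟨by omega, by omega⟩, ⟨m, by rw [h3]; ring⟩⟩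
    rwa [Int.cast_natCast] at h5
  · intro m hm hmem
    rw [mem_image] at hmem
    obtain ⟨j, hj, hj2⟩ := hmem
    rw [mem_Icc] at hj
    rw [m3_int, ZMod.intCast_eq_intCast_iff_dvd_sub] at hj2
    push_cast at hj2
    have h2 : (3 : ℤ) * Q ∣ 3 * ((m - j) * e) := by
      have h3 : (3 : ℤ) * ((m - j) * e) = 3 * (m * e) - 3 * (j * e) := by ring
      rw [h3]
      exact hj2
    have h3 : (Q : ℤ) ∣ (m - j) * e := Int.dvd_of_mul_dvd_mul_left (by norm_num) h2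
    exact hm j (abs_lt.2 ⟨by omega, by omega⟩) (he.symm.dvd_of_dvd_mul_right h3)

theorem case_gen {D : Set ℕ} (hP : Pairs D) (h0 : 0 ∉ D) {q : ℕ} (hq : 0 < q) (hq2 : Even q)
    (Q r : ℕ) (hr : 2 ≤ r) (hQ : (Q : ℤ) = 4 * r - 1) (J : Finset (ZMod Q)) (d : ℤ)
    (hd : IsCoprime d (Q : ℤ))
    (hJ : ∀ n : ℤ, (∃ i : ℤ, |i| < r ∧ (Q : ℤ) ∣ n - i * d) → (n : ZMod Q) ∈ J)
    (hW : AlmostAllOf D {d : ℕ | ∃ i : ℕ, d = 3 * q * i ∧ (i : ZMod Q) ∈ J})
    (hthird : ∀ a : ℕ, Even a → Share D (3 * q) a (1 / (3 * ((3 * q : ℕ) : ℝ)))) :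
    Share D q 0 (7 / 18 / (q : ℝ)) := by
  classical
  have hQ7 : 7 ≤ Q := by omega
  have hQ0 : 0 < Q := by omega
  have : NeZero Q := ⟨by omega⟩
  have : NeZero (3 * Q) := ⟨by omega⟩
  obtain ⟨K, hK, hK0, hKf, hKn⟩ := exists_K' hq Q r (by omega) hQ J d hd hJ hW
  -- the unit
  have hunit : IsUnit (((r * d : ℤ)) : ZMod Q) := by
    have h1 : IsCoprime (r : ℤ) (Q : ℤ) := ⟨4, -1, by rw [hQ]; ring⟩
    obtain ⟨s, t, hst⟩ := h1.mul_left hd
    refine IsUnit.of_mul_eq_one ((s : ℤ) : ZMod Q) ?_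
    have h2 : ((s * (r * d) + t * Q : ℤ) : ZMod Q) = ((1 : ℤ) : ZMod Q) := by rw [hst]
    push_cast at h2 ⊢
    rw [ZMod.natCast_self, mul_zero, add_zero] at h2
    linear_combination h2
  obtain ⟨v, hv⟩ := hunit
  have hvK : m3 Q v ∉ K := by
    rw [hv]
    refine hKn r fun j hj hdvd => ?_
    rw [abs_lt] at hj
    have h1 := Int.le_of_dvd (by omega) hdvd
    omega
  have hvK9 : 3 ∣ Q → m3 Q (9 * v) ∉ K := by
    intro h3
    have h1 : (9 : ZMod Q) * v = ((9 * r * d : ℤ) : ZMod Q) := by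
      rw [hv]
      push_cast
      ring
    rw [h1]
    refine hKn (9 * r) fun j hj hdvd => ?_
    rw [abs_lt] at hj
    have h2 : (Q : ℤ) ∣ r + 2 - j := by
      have h3 : (r : ℤ) + 2 - j = 9 * r - j - Q * 2 := by rw [hQ]; ring
      rw [h3]
      exact dvd_sub hdvd (dvd_mul_right _ _)
    have h4 := Int.le_of_dvd (by omega) h2
    omega
  intro e he
  have hM0 : 0 < 3 * Q * q := by positivity
  have hqR : (0 : ℝ) < q := by exact_mod_cast hq
  have hQR : (7 : ℝ) ≤ Q := by exact_mod_cast hQ7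
  have hMR : (0 : ℝ) < ((3 * Q * q : ℕ) : ℝ) := by exact_mod_cast hM0
  obtain ⟨e', he', he1, he2⟩ : ∃ e' : ℝ, 0 < e' ∧ 2 * Q * e' ≤ e ∧
      e' ≤ 1 / ((3 * Q * q : ℕ) : ℝ) := by
    refine ⟨min (e / (2 * Q)) (1 / ((3 * Q * q : ℕ) : ℝ)), by positivity, ?_, min_le_right _ _⟩
    calc 2 * (Q : ℝ) * min (e / (2 * Q)) (1 / ((3 * Q * q : ℕ) : ℝ)) ≤ 2 * Q * (e / (2 * Q)) :=
          mul_le_mul_of_nonneg_left (min_le_left _ _) (by positivity)
      _ = e := by field_simp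
  -- the full classes
  have E1 : ∀ᶠ n : ℕ in atTop, ∀ i : ZMod (3 * Q),
      AlmostAllOf D {d | d ≡ i.val * q [MOD 3 * Q * q]} → ∀ x : ℕ,
        (1 / ((3 * Q * q : ℕ) : ℝ) - e') * n ≤ ac D Q q x n i := by
    refine eventually_all.2 fun i => ?_
    by_cases hi : AlmostAllOf D {d | d ≡ i.val * q [MOD 3 * Q * q]}
    · obtain ⟨L, hL⟩ := cnt_full hM0 hi e' he'
      exact eventually_atTop.2 ⟨L, fun n hn _ x => hL n hn x⟩
    · exact Eventually.of_forall fun n h => absurd h hi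
  -- the three terms
  have E2 : ∀ᶠ n : ℕ in atTop, ∀ c b : ZMod (3 * Q),
      ¬ AlmostAllOf D {d | d ≡ c.val * q [MOD 3 * Q * q]} → pi3 Q b = 0 → ∀ x : ℕ,
        (1 / ((3 * Q * q : ℕ) : ℝ) - e') * n ≤
          ac D Q q x n (b - c) + ac D Q q x n b + ac D Q q x n (b + c) := by
    refine eventually_all.2 fun c => eventually_all.2 fun b => ?_
    by_cases hc : AlmostAllOf D {d | d ≡ c.val * q [MOD 3 * Q * q]}
    · exact Eventually.of_forall fun n h => absurd hc h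
    · by_cases hb : pi3 Q b = 0
      · obtain ⟨L, hL⟩ := three_ac hP h0 hQ0 hq hq2 c b hb hc e' he'
        exact eventually_atTop.2 ⟨L, fun n hn _ _ x => hL n hn x⟩
      · exact Eventually.of_forall fun n _ h => absurd h hb
  have E3 : ∀ᶠ n : ℕ in atTop, ∀ c b : ZMod (3 * Q),
      ¬ AlmostAllOf D {d | d ≡ c.val * q [MOD 3 * Q * q]} → pi3 Q c = 0 → ∀ x : ℕ,
        (1 / ((3 * Q * q : ℕ) : ℝ) - e') * n ≤
          ac D Q q x n (b - c) + ac D Q q x n b + ac D Q q x n (b + c) := by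
    refine eventually_all.2 fun c => eventually_all.2 fun b => ?_
    by_cases hc : AlmostAllOf D {d | d ≡ c.val * q [MOD 3 * Q * q]}
    · exact Eventually.of_forall fun n h => absurd hc h
    · by_cases hc0 : pi3 Q c = 0
      · obtain ⟨L, hL⟩ := three_ac' hP h0 hQ0 hq hq2 c b hc0 hc e' he'
        exact eventually_atTop.2 ⟨L, fun n hn _ _ x => hL n hn x⟩
      · exact Eventually.of_forall fun n _ h => absurd h hc0
  obtain ⟨L1, hL1⟩ := hthird (1 * q) (hq2.mul_left 1) e' he'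
  obtain ⟨L2, hL2⟩ := hthird (2 * q) (hq2.mul_left 2) e' he'
  obtain ⟨L3, hL3⟩ := eventually_atTop.1 (E1.and (E2.and E3))
  refine ⟨L1 + L2 + L3, fun n hn x => ?_⟩
  have g1 := hL1 n (by omega) x
  have g2 := hL2 n (by omega) x
  obtain ⟨g3, g4, g5⟩ := hL3 n (by omega)
  change _ ≤ (cnt D (3 * q) (1 * q) x n : ℝ) at g1
  change _ ≤ (cnt D (3 * q) (2 * q) x n : ℝ) at g2
  have g1' := g1.trans (le_sum_ac D (Q := Q) hq 1 x n)
  have g2' := g2.trans (le_sum_ac D (Q := Q) hq 2 x n)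
  have hn0 : (0 : ℝ) ≤ n := Nat.cast_nonneg n
  have hu : 0 ≤ (1 / ((3 * Q * q : ℕ) : ℝ) - e') * n := mul_nonneg (by linarith) hn0
  have hthr : (Q : ℝ) / 3 * ((1 / ((3 * Q * q : ℕ) : ℝ) - e') * n) ≤
      (1 / (3 * ((3 * q : ℕ) : ℝ)) - e') * n := by
    have h1 : (Q : ℝ) / 3 * ((1 / ((3 * Q * q : ℕ) : ℝ) - e') * n) =
        (1 / (3 * ((3 * q : ℕ) : ℝ)) - Q / 3 * e') * n := by
      have hQne : (Q : ℝ) ≠ 0 := by linarith
      push_cast
      field_simp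
    rw [h1]
    refine mul_le_mul_of_nonneg_right ?_ hn0
    have h2 : 1 * e' ≤ Q / 3 * e' := mul_le_mul_of_nonneg_right (by linarith) he'.le
    linarith
  have hcore := core_gen hr (by omega : Q + 1 = 4 * r) (ac D Q q x n) (ac_nonneg D Q q x n)
    (fun i => AlmostAllOf D {d | d ≡ i.val * q [MOD 3 * Q * q]})
    ((1 / ((3 * Q * q : ℕ) : ℝ) - e') * n) hu (fun i hi => g3 i hi x) K hK hK0
    hKf v hvK hvK9 (fun c b hc hb => g4 c b hc hb x) (fun c b hc hc0 => g5 c b hc hc0 x)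
    (hthr.trans (by simpa using g1')) (hthr.trans (by simpa using g2'))
  refine le_trans ?_ (hcore.trans (sum_ac_le D hq x n))
  have h3 : 7 / 18 * (3 * (Q : ℝ)) * ((1 / ((3 * Q * q : ℕ) : ℝ) - e') * n) =
      (7 / 18 / (q : ℝ) - 7 / 6 * Q * e') * n := by
    have hQne : (Q : ℝ) ≠ 0 := by linarith
    push_cast
    field_simp
    ring
  rw [h3]
  refine mul_le_mul_of_nonneg_right ?_ hn0
  have h4 : 7 / 6 * (Q : ℝ) * e' ≤ 2 * Q * e' :=
    mul_le_mul_of_nonneg_right (mul_le_mul_of_nonneg_right (by norm_num) (by positivity)) he'.le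
  linarith

end Pool.Agent.Lib_helper20.FS
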