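import Pool.Agent.Lib_helper20.FS.CaseOne
import Pool.Agent.Lib_helper20.FS.Sevenths
import Pool.Agent.Lib_helper20.FS.General

/-!
# A third, and seven eighteenths unless almost all elements of one of four sets are in `D`
-/

set_option autoImplicit false

namespace Pool.Agent.Lib_helper20.FS

open Finset Pool.Agent.AAM Pool.Agent.Lib_helper31.DIC Pool.Agent.Lib_helper23.PG

/-- three classes modulo `Q q` of the multiples of `q` -/
theorem cnt_trip (D : Set ℕ) {q : ℕ} (hq : 0 < q) (Q a : ℕ) (ha0 : 0 < a) (ha : a < Q)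
    (hne : a ≠ Q - a) (x n : ℕ) :
    cnt D (Q * q) (0 * q) x n + cnt D (Q * q) (a * q) x n + cnt D (Q * q) ((Q - a) * q) x n ≤
      cnt D q 0 x n := by
  classical
  have hdis : ∀ i j : ℕ, i < j → j < Q →
      Disjoint ((Ioc x (x + n)).filter fun y => y ≡ i * q [MOD Q * q] ∧ y ∈ D)
        ((Ioc x (x + n)).filter fun y => y ≡ j * q [MOD Q * q] ∧ y ∈ D) := by
    intro i j hij hj
    rw [disjoint_left]
    intro y hy hy'
    rw [mem_filter] at hy hy'
    refine modEq_add_ne Q (a := i * q) (j := j - i) (by omega) (by omega) hq y hy.2.1 ?_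
    have h1 : i * q + (j - i) * q = j * q := by
      rw [← Nat.add_mul]
      congr 1
      omega
    rw [h1]
    exact hy'.2.1
  have hd : Disjoint ((Ioc x (x + n)).filter fun y => y ≡ a * q [MOD Q * q] ∧ y ∈ D)
        ((Ioc x (x + n)).filter fun y => y ≡ (Q - a) * q [MOD Q * q] ∧ y ∈ D) := by
    rcases Nat.lt_or_ge a (Q - a) with h | h
    · exact hdis _ _ h (by omega)
    · exact (hdis _ _ (by omega : Q - a < a) ha).symm
  rw [cnt_eq, cnt_eq, cnt_eq, cnt_eq,
    ← card_union_of_disjoint (hdis 0 a ha0 ha),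
    ← card_union_of_disjoint (disjoint_union_left.2 ⟨hdis 0 (Q - a) (by omega) (by omega), hd⟩)]
  refine card_le_card ?_
  have hsub : ∀ i, ((Ioc x (x + n)).filter fun y => y ≡ i * q [MOD Q * q] ∧ y ∈ D) ⊆
      (Ioc x (x + n)).filter fun y => y ≡ 0 [MOD q] ∧ y ∈ D := by
    intro i y hy
    rw [mem_filter] at hy ⊢
    refine ⟨hy.1, ?_, hy.2.2⟩
    have h3 : y ≡ i * q [MOD q] := hy.2.1.of_dvd (dvd_mul_left _ _)
    exact h3.trans ((Nat.modEq_zero_iff_dvd).2 (dvd_mul_left _ _))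
  exact union_subset (union_subset (hsub 0) (hsub a)) (hsub (Q - a))

/-- **four sets**: almost all elements of one of four sets are in `D`, or seven eighteenths of the
multiples of `q` -/
theorem four_sets {k : ℕ} {D : Set ℕ} (hD : HitsBins 4 k D) (hR : Removal D) (h0 : 0 ∉ D) {q : ℕ}
    (hq : 0 < q) (hq2 : Even q) :
    (∃ a, 1 ≤ a ∧ a ≤ 4 ∧ AlmostAllOf D (XX q a)) ∨ Share D q 0 (7 / 18 / (q : ℝ)) := by
  by_cases hX1 : AlmostAllOf D (XX q 1)
  · exact Or.inl ⟨1, by norm_num, by norm_num, hX1⟩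
  by_cases hX2 : AlmostAllOf D (XX q 2)
  · exact Or.inl ⟨2, by norm_num, by norm_num, hX2⟩
  by_cases hX3 : AlmostAllOf D (XX q 3)
  · exact Or.inl ⟨3, by norm_num, by norm_num, hX3⟩
  by_cases hX4 : AlmostAllOf D (XX q 4)
  · exact Or.inl ⟨4, by norm_num, by norm_num, hX4⟩
  right
  have h3q : 0 < 3 * q := by omega
  have h6 : 6 ∣ 3 * q := by
    have := hq2.two_dvd
    omega
  have hqR : (0 : ℝ) < q := by exact_mod_cast hq
  -- not almost all multiples of `3 q`
  have hn : ¬ AlmostAll D (3 * q) := by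
    intro h
    apply hX3
    refine AlmostAllOf.mono (almostAllOf_dvd.2 h) ?_
    have e9 : (3 * q) ∣ (9 * q) := ⟨3, by ring⟩
    rintro d (hd | hd | hd)
    · exact (Nat.modEq_zero_iff_dvd).1 (hd.of_dvd e9)
    · exact (Nat.modEq_zero_iff_dvd).1 ((hd.of_dvd e9).trans ((Nat.modEq_zero_iff_dvd).2 dvd_rfl))
    · refine (Nat.modEq_zero_iff_dvd).1 ((hd.of_dvd e9).trans ((Nat.modEq_zero_iff_dvd).2 ?_))
      exact ⟨2, by ring⟩
  have hthird : ∀ a : ℕ, Even a → Share D (3 * q) a (1 / (3 * ((3 * q : ℕ) : ℝ))) := fun a ha =>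
    third (pairs_of hR) h0 (3 * q) h3q h6 hn a ha
  by_cases h9 : AlmostAllOf D {d | d ≡ 0 [MOD 9 * q]}
  · refine share_mono (case_one (pairs_of hR) h0 hq hq2 h9 hthird hX1 hX2 hX4) ?_
    exact div_le_div_of_nonneg_right (by norm_num) hqR.le
  intro e he
  obtain ⟨ε, hε, hε1, hε2⟩ : ∃ ε : ℝ, 0 < ε ∧ ε ≤ 1 / 4 ∧ ε ≤ e * q :=
    ⟨min (1 / 4) (e * q), by positivity, min_le_left _ _, min_le_right _ _⟩
  rcases Pool.Agent.TA.ta_windows2 D k hD (3 * q) h3q h6 ε hε with
    ⟨L, hL⟩ | ⟨r, J, hr, hJ, -, h⟩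
  · -- half of the multiples of `3 q`
    have h7 : Share D (3 * q) 0 ((1 / 2 - ε) / ((3 * q : ℕ) : ℝ)) :=
      share_of_windows h3q (1 / 2 - ε) (by linarith) ⟨L, hL⟩
    have h4 := share_three (D := D) (a := 0) hq
      (s := fun i => if i = 0 then (1 / 2 - ε) / ((3 * q : ℕ) : ℝ) else
        1 / (3 * ((3 * q : ℕ) : ℝ)))
      (fun i _ => by
        by_cases hi : i = 0
        · subst hi
          simpa using h7
        · rw [if_neg hi]
          exact hthird _ (by
            rw [zero_add]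
            exact hq2.mul_left i))
    obtain ⟨L', hL'⟩ := h4 (e / 2) (by positivity)
    refine ⟨L', fun n hn x => le_trans ?_ (hL' n hn x)⟩
    refine mul_le_mul_of_nonneg_right ?_ (Nat.cast_nonneg n)
    simp only [if_true, one_ne_zero, if_false, OfNat.ofNat_ne_zero]
    have h8 : (1 / 2 - ε) / ((3 * q : ℕ) : ℝ) + 1 / (3 * ((3 * q : ℕ) : ℝ)) +
        1 / (3 * ((3 * q : ℕ) : ℝ)) = 7 / 18 / (q : ℝ) - ε / 3 / q := by
      push_cast
      field_simp
      ring
    rw [h8]
    have h10 : ε / 3 / q ≤ e / 2 := by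
      rw [div_div, div_le_iff₀ (by positivity)]
      nlinarith
    linarith
  · have hW := almostAllOf_of_windows h3q J h
    obtain ⟨d, hd, hJ⟩ := hJ
    have hr2 : 2 ≤ r := by
      by_contra hlt
      obtain rfl : r = 1 := by omega
      refine h9 (hW.mono fun y hy => ?_)
      obtain ⟨i, rfl⟩ := (Nat.modEq_zero_iff_dvd).1 hy
      refine ⟨3 * i, by ring, ?_⟩
      have h1 := hJ (3 * i) ⟨0, by norm_num, ⟨i, by norm_num⟩⟩
      push_cast at h1 ⊢
      exact h1
    exact case_gen (pairs_of hR) h0 hq hq2 (4 * r - 1) r hr2 (by omega) J d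
      (by
        have h1 : ((4 * r - 1 : ℕ) : ℤ) = 4 * (r : ℤ) - 1 := by omega
        rw [h1]
        exact hd)
      (fun n hn => hJ n (by
        have h1 : ((4 * r - 1 : ℕ) : ℤ) = 4 * (r : ℤ) - 1 := by omega
        rw [h1] at hn
        exact hn)) hW hthird e he

/-- one third of the multiples of `q` -/
theorem third_all {k : ℕ} {D : Set ℕ} (hD : HitsBins 4 k D) (hR : Removal D) (h0 : 0 ∉ D) {q : ℕ}
    (hq : 0 < q) (hq2 : Even q) : Share D q 0 (1 / 3 / (q : ℝ)) := by
  have hqR : (0 : ℝ) < q := by exact_mod_cast hq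
  rcases four_sets hD hR h0 hq hq2 with ⟨a, ha1, ha4, h⟩ | h
  · have hM0 : 0 < 9 * q := by omega
    intro e he
    obtain ⟨L0, hL0⟩ := cnt_full hM0 (a := 0 * q) (h.mono (fun d hd => Or.inl (by
      rw [Nat.zero_mul] at hd
      exact hd))) (e / 3) (by positivity)
    obtain ⟨L1, hL1⟩ := cnt_full hM0 (a := a * q) (h.mono (fun d hd => Or.inr (Or.inl hd)))
      (e / 3) (by positivity)
    obtain ⟨L2, hL2⟩ := cnt_full hM0 (a := (9 - a) * q) (h.mono (fun d hd => Or.inr (Or.inr hd)))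
      (e / 3) (by positivity)
    refine ⟨L0 + L1 + L2, fun n hn x => ?_⟩
    have g0 := hL0 n (by omega) x
    have g1 := hL1 n (by omega) x
    have g2 := hL2 n (by omega) x
    have g3 : ((cnt D (9 * q) (0 * q) x n + cnt D (9 * q) (a * q) x n +
        cnt D (9 * q) ((9 - a) * q) x n : ℕ) : ℝ) ≤ cnt D q 0 x n := by
      exact_mod_cast cnt_trip D hq 9 a (by omega) (by omega) (by omega) x n
    push_cast at g3
    change _ ≤ (cnt D q 0 x n : ℝ)
    have h13 : (1 / 3 / (q : ℝ) - e) * n = 3 * ((1 / ((9 * q : ℕ) : ℝ) - e / 3) * n) := by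
      push_cast
      field_simp
      ring
    rw [h13]
    linarith
  · exact share_mono h (div_le_div_of_nonneg_right (by norm_num) hqR.le)

end Pool.Agent.Lib_helper20.FS
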