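import Pool.Agent.Lib_helper31.DIC.Cls

/-!
# Three terms for residue classes

If the class of `c` modulo `M` has positive upper Banach density outside `D`, the three classes
`b - c`, `b`, `b + c` contain together at least one full class of elements of `D`, if `c` or `b` is
divisible by `3`.
-/

set_option autoImplicit false

namespace Pool.Agent.Lib_helper20.FS

open Finset Pool.Agent.AAM Pool.Agent.Lib_helper31.DIC

/-- the number of elements of `D` in the window `(x, x + n]` in the class of `a` modulo `M` -/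
noncomputable def cnt (D : Set ℕ) (M a x n : ℕ) : ℕ :=
  ({d : ℕ | d ≡ a [MOD M] ∧ d ∈ D} ∩ Set.Ioc x (x + n)).ncard

theorem cnt_eq (D : Set ℕ) [DecidablePred (· ∈ D)] (M a x n : ℕ) :
    cnt D M a x n = ((Ioc x (x + n)).filter fun y => y ≡ a [MOD M] ∧ y ∈ D).card := by
  unfold cnt
  rw [← Set.ncard_coe_finset]
  congr 1
  ext y
  simp only [coe_filter, mem_Ioc, Set.mem_inter_iff, Set.mem_Ioc, Set.mem_ofPred_eq]
  tauto

/-- the elements of the class of `b`, shifted up by `d`, lie in the class of `b'` -/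
theorem shift_up {D : Set ℕ} [DecidablePred (· ∈ D)] (M b b' d x n : ℕ) (h : b + d ≡ b' [MOD M]) :
    ((Ioc x (x + n)).filter fun y => y ≡ b [MOD M] ∧ d + y ∈ D).card ≤ cnt D M b' x n + d := by
  classical
  have h1 : ((Ioc x (x + n)).filter fun y => y ≡ b [MOD M] ∧ d + y ∈ D).card ≤
      (((Ioc x (x + n)).filter fun y => y ≡ b' [MOD M] ∧ y ∈ D) ∪ Ioc (x + n) (x + n + d)).card := by
    refine card_le_card_of_injOn (fun y => d + y) (fun y hy => ?_) (fun y _ y' _ h => ?_)
    · simp only [coe_filter, mem_Ioc, Set.mem_ofPred_eq] at hy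
      simp only [coe_union, coe_filter, Set.mem_union, mem_Ioc, Set.mem_ofPred_eq, coe_Ioc,
        Set.mem_Ioc]
      obtain ⟨⟨hy1, hy2⟩, hy3, hy4⟩ := hy
      by_cases c : d + y ≤ x + n
      · refine Or.inl ⟨⟨by omega, c⟩, ?_, hy4⟩
        have h2 : d + y ≡ d + b [MOD M] := Nat.ModEq.add_left d hy3
        rw [add_comm d b] at h2
        exact h2.trans h
      · exact Or.inr ⟨by omega, by omega⟩
    · dsimp only at h
      omega
  refine h1.trans ((card_union_le _ _).trans ?_)
  rw [← cnt_eq, Nat.card_Ioc]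
  omega

/-- the elements of the class of `b`, shifted down by `d`, lie in the class of `b'` -/
theorem shift_down {D : Set ℕ} [DecidablePred (· ∈ D)] (M b b' d x n : ℕ)
    (h : b' + d ≡ b [MOD M]) :
    ((Ioc x (x + n)).filter fun y => y ≡ b [MOD M] ∧ d < y ∧ y - d ∈ D).card ≤
      cnt D M b' x n + d := by
  classical
  have h1 : ((Ioc x (x + n)).filter fun y => y ≡ b [MOD M] ∧ d < y ∧ y - d ∈ D).card ≤
      (((Ioc x (x + n)).filter fun y => y ≡ b' [MOD M] ∧ y ∈ D) ∪ Ioc (x - d) x).card := by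
    refine card_le_card_of_injOn (fun y => y - d) (fun y hy => ?_) (fun y hy y' hy' h => ?_)
    · simp only [coe_filter, mem_Ioc, Set.mem_ofPred_eq] at hy
      simp only [coe_union, coe_filter, Set.mem_union, mem_Ioc, Set.mem_ofPred_eq, coe_Ioc,
        Set.mem_Ioc]
      obtain ⟨⟨hy1, hy2⟩, hy3, hy4, hy5⟩ := hy
      by_cases c : x < y - d
      · refine Or.inl ⟨⟨c, by omega⟩, ?_, hy5⟩
        have h2 : y - d + d ≡ b' + d [MOD M] := by
          rw [Nat.sub_add_cancel hy4.le]
          exact hy3.trans h.symm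
        exact Nat.ModEq.add_right_cancel' d h2
      · exact Or.inr ⟨by omega, by omega⟩
    · simp only [coe_filter, mem_Ioc, Set.mem_ofPred_eq] at hy hy'
      dsimp only at h
      omega
  refine h1.trans ((card_union_le _ _).trans ?_)
  rw [← cnt_eq, Nat.card_Ioc]
  omega

/-- **three terms** -/
theorem three_classes {D : Set ℕ} (hD : Pairs D) (h0 : 0 ∉ D) (M : ℕ) (hM0 : 0 < M) (hM : 6 ∣ M)
    (c b b₁ b₂ : ℕ) (hc : Even c) (hb : Even b) (h3 : 3 ∣ c ∨ 3 ∣ b)
    (hb₁ : b₁ + c ≡ b [MOD M]) (hb₂ : b + c ≡ b₂ [MOD M])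
    (h : PosBanach {d : ℕ | d ≡ c [MOD M] ∧ d ∉ D}) (e : ℝ) (he : 0 < e) :
    ∃ L : ℕ, ∀ n ≥ L, ∀ x : ℕ,
      (1 / (M : ℝ) - e) * n ≤ (cnt D M b₁ x n : ℝ) + cnt D M b x n + cnt D M b₂ x n := by
  classical
  obtain ⟨F, hF, L, hL⟩ := three_term hD _ h (e / 2) (by positivity)
  set m := F.sup id with hm
  obtain ⟨N, hN⟩ := exists_nat_gt ((3 * (m : ℝ) + 1) / (e / 2))
  refine ⟨max L N, fun n hn x => ?_⟩
  obtain ⟨d, hd, hbad⟩ := hL n ((le_max_left _ _).trans hn) x
  have hdm : d ≤ m := by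
    rw [hm]
    exact le_sup (f := id) hd
  obtain ⟨hdc, hdD⟩ := hF d hd
  have hdc : d ≡ c [MOD M] := hdc
  have hdD : d ∉ D := hdD
  have hbF : (({y : ℕ | BadPair D d y} ∩ Set.Ioc x (x + n)).ncard) =
      ((Ioc x (x + n)).filter fun y => BadPair D d y).card := by
    rw [← Set.ncard_coe_finset]
    congr 1
    ext y
    simp only [coe_filter, mem_Ioc, Set.mem_inter_iff, Set.mem_Ioc, Set.mem_ofPred_eq]
    tauto
  rw [hbF] at hbad
  have hmod : ∀ a y, y ≡ a [MOD M] → y % 6 = a % 6 := fun a y hy => hy.of_dvd hM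
  have hd6 := hmod c d hdc
  rw [Nat.even_iff] at hc hb
  have hdev : Even d := by
    rw [Nat.even_iff]
    omega
  -- the cover
  have hsub : ((Ioc x (x + n)).filter fun y => y ≡ b [MOD M]) ⊆
      ((Ioc x (x + n)).filter fun y => BadPair D d y) ∪
      ((Ioc x (x + n)).filter fun y => y ≡ b [MOD M] ∧ y ∈ D) ∪
      ((Ioc x (x + n)).filter fun y => y ≡ b [MOD M] ∧ d + y ∈ D) ∪
      ((Ioc x (x + n)).filter fun y => y ≡ b [MOD M] ∧ d < y ∧ y - d ∈ D) ∪
      ((Ioc x (x + n)).filter fun y => y < d) := by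
    intro y hy
    simp only [mem_union, mem_filter] at hy ⊢
    obtain ⟨hy1, hy2⟩ := hy
    have hy6 := hmod b y hy2
    by_cases c1 : y ∈ D
    · exact Or.inl (Or.inl (Or.inl (Or.inr ⟨hy1, hy2, c1⟩)))
    by_cases c2 : d + y ∈ D
    · exact Or.inl (Or.inl (Or.inr ⟨hy1, hy2, c2⟩))
    by_cases c3 : y < d
    · exact Or.inr ⟨hy1, c3⟩
    have c4 : d - y ∉ D := by
      have : d - y = 0 := by omega
      rw [this]
      exact h0
    by_cases c5 : y - d ∈ D
    · refine Or.inl (Or.inr ⟨hy1, hy2, ?_, c5⟩)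
      by_contra hlt
      have : y - d = 0 := by omega
      rw [this] at c5
      exact h0 c5
    refine Or.inl (Or.inl (Or.inl (Or.inl ⟨hy1, ?_⟩)))
    refine ⟨hdev, ?_, ?_, hdD, c1, c2, c4, c5⟩
    · rw [Nat.even_iff]
      omega
    · rcases h3 with h3 | h3
      · exact Or.inl (by omega)
      · exact Or.inr (by omega)
  have k1 := shift_up (D := D) M b b₂ d x n ((Nat.ModEq.add_left b hdc).trans hb₂)
  have k2 := shift_down (D := D) M b b₁ d x n ((Nat.ModEq.add_left b₁ hdc).trans hb₁)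
  have k3 : ((Ioc x (x + n)).filter fun y => y < d).card ≤ d := by
    have h1 : ((Ioc x (x + n)).filter fun y => y < d) ⊆ range d := by
      intro y hy
      rw [mem_filter] at hy
      exact mem_range.2 hy.2
    have h2 := card_le_card h1
    rwa [card_range] at h2
  have hcount := class_count M b n x hM0
  have h7 : n / M ≤ ((Ioc x (x + n)).filter fun y => BadPair D d y).card + cnt D M b x n +
      (cnt D M b₂ x n + d) + (cnt D M b₁ x n + d) + d := by
    have h8 := card_le_card hsub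
    have h9 := h8.trans ((card_union_le _ _).trans (Nat.add_le_add_right ((card_union_le _ _).trans
      (Nat.add_le_add_right ((card_union_le _ _).trans (Nat.add_le_add_right
      (card_union_le _ _) _)) _)) _))
    rw [← cnt_eq] at h9
    omega
  have h8 : ((n / M : ℕ) : ℝ) ≤ e / 2 * n + cnt D M b x n + (cnt D M b₂ x n + d) +
      (cnt D M b₁ x n + d) + d := by
    have h9 : ((n / M : ℕ) : ℝ) ≤ ((Ioc x (x + n)).filter fun y => BadPair D d y).card +
        cnt D M b x n + (cnt D M b₂ x n + d) + (cnt D M b₁ x n + d) + d := by exact_mod_cast h7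
    linarith
  have hM0R : (0 : ℝ) < M := by exact_mod_cast hM0
  have h9 : (n : ℝ) / M - 1 ≤ ((n / M : ℕ) : ℝ) := by
    have h10 : n < M * (n / M + 1) := Nat.lt_mul_div_succ n hM0
    have h11 : (n : ℝ) ≤ M * (((n / M : ℕ) : ℝ) + 1) := by exact_mod_cast h10.le
    rw [sub_le_iff_le_add, div_le_iff₀ hM0R]
    linarith
  have hdR : (d : ℝ) ≤ m := by exact_mod_cast hdm
  have hnN : (3 * (m : ℝ) + 1) / (e / 2) < n :=
    hN.trans_le (by exact_mod_cast (le_max_right _ _).trans hn)
  rw [div_lt_iff₀ (by positivity)] at hnN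
  have h13 : (1 / (M : ℝ) - e) * n = (n : ℝ) / M - e * n := by ring
  rw [h13]
  linarith

end Pool.Agent.Lib_helper20.FS
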